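import Pool.Agent.W_MP_21427b_al.Def

/-!
The associated graded Lie ring of a group, built on the lower central series.
Degrees are shifted by one: `gam G n` is the subgroup usually called gamma_{n+1}(G).
-/

namespace Pool.Agent.W_MP_21427b_al

universe u v

section Defs

variable (G : Type u) [Group G]

/-- `gam G n` is the `(n+1)`-st term of the lower central series of `G`
(`gam G 0 = G`, `gam G (n+1) = [gam G n, G]`). -/
abbrev gam (n : ℕ) : Subgroup G := Subgroup.lowerCentralSeries (⊤ : Subgroup G) n

theorem gam_antitone {m n : ℕ} (h : m ≤ n) : gam G n ≤ gam G m :=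
  Subgroup.lowerCentralSeries_antitone ⊤ h

theorem three_subgroups (A B C N : Subgroup G) [N.Normal]
    (h1 : ⁅⁅B, C⁆, A⁆ ≤ N) (h2 : ⁅⁅C, A⁆, B⁆ ≤ N) : ⁅⁅A, B⁆, C⁆ ≤ N := by
  have key : ∀ K : Subgroup G, K ≤ N ↔ K.map (QuotientGroup.mk' N) = ⊥ := by
    intro K
    rw [Subgroup.map_eq_bot_iff, QuotientGroup.ker_mk']
  rw [key] at h1 h2 ⊢
  simp only [Subgroup.map_commutator] at h1 h2 ⊢
  exact Subgroup.commutator_commutator_eq_bot_of_rotate h1 h2

theorem gam_commutator_le (m n : ℕ) : ⁅gam G m, gam G n⁆ ≤ gam G (m + n + 1) := by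
  induction n generalizing m with
  | zero =>
    show ⁅gam G m, gam G 0⁆ ≤ gam G (m + 1)
    exact le_refl _
  | succ n ih =>
    have h0 : gam G (n + 1) = ⁅gam G n, (⊤ : Subgroup G)⁆ := rfl
    rw [Subgroup.commutator_comm, h0]
    apply three_subgroups
    · -- ⁅⁅⊤, gam m⁆, gam n⁆
      have : ⁅(⊤ : Subgroup G), gam G m⁆ ≤ gam G (m + 1) := by
        rw [Subgroup.commutator_comm]; exact le_refl _
      refine (Subgroup.commutator_mono this le_rfl).trans ((ih (m + 1)).trans ?_)
      apply gam_antitone; omega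
    · -- ⁅⁅gam m, gam n⁆, ⊤⁆
      refine (Subgroup.commutator_mono (ih m) le_rfl).trans ?_
      exact le_refl _

end Defs

section Elements

variable {G : Type u} [Group G]

/-- the group commutator `x y x⁻¹ y⁻¹` -/
def cm (x y : G) : G := x * y * x⁻¹ * y⁻¹

theorem cm_mem {m n : ℕ} {x y : G} (hx : x ∈ gam G m) (hy : y ∈ gam G n) :
    cm x y ∈ gam G (m + n + 1) :=
  gam_commutator_le G m n (Subgroup.commutator_mem_commutator hx hy)

theorem mem_of_le {m n : ℕ} (h : m ≤ n) {x : G} (hx : x ∈ gam G n) : x ∈ gam G m :=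
  gam_antitone G h hx

theorem mem_zero (x : G) : x ∈ gam G 0 := Subgroup.mem_top x

theorem conj_mem {n : ℕ} {x : G} (hx : x ∈ gam G n) (g : G) : g * x * g⁻¹ ∈ gam G n :=
  Subgroup.Normal.conj_mem inferInstance x hx g

end Elements

section Graded

variable (G : Type u) [Group G]

/-- The multiplicative quotient `gam G n / gam G (n+1)`. -/
abbrev grMul (n : ℕ) : Type u := gam G n ⧸ (gam G (n + 1)).subgroupOf (gam G n)

instance grMulCommGroup (n : ℕ) : CommGroup (grMul G n) :=
  { (inferInstance : Group (grMul G n)) with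
    mul_comm := by
      intro a b
      obtain ⟨x, rfl⟩ := QuotientGroup.mk_surjective a
      obtain ⟨y, rfl⟩ := QuotientGroup.mk_surjective b
      change ((x * y : gam G n) : grMul G n) = ((y * x : gam G n) : grMul G n)
      rw [QuotientGroup.eq, Subgroup.mem_subgroupOf]
      have h : ((x * y)⁻¹ * (y * x) : gam G n) = ((y⁻¹ * x⁻¹ * y * x : gam G n)) := by group
      rw [h]
      have h2 : cm ((y : G)⁻¹) ((x : G)⁻¹) ∈ gam G (n + n + 1) :=
        cm_mem ((gam G n).inv_mem y.2) ((gam G n).inv_mem x.2)
      have h3 : ((y⁻¹ * x⁻¹ * y * x : gam G n) : G) = cm ((y : G)⁻¹) ((x : G)⁻¹) := by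
        simp [cm]
      rw [h3]
      exact mem_of_le (by omega) h2 }

/-- The homogeneous component of degree `n+1` of the associated Lie ring,
`gamma_{n+1}(G) / gamma_{n+2}(G)` written additively. -/
def gr (n : ℕ) : Type u := Additive (grMul G n)

instance grAddCommGroup (n : ℕ) : AddCommGroup (gr G n) :=
  inferInstanceAs (AddCommGroup (Additive (grMul G n)))

/-- The additive group of the associated Lie ring: the direct sum of all components. -/
abbrev AssocLie : Type u := DirectSum ℕ (gr G)

end Graded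

section Classes

variable {G : Type u} [Group G]

/-- The class of an element `x` of `gam G n` in the component `gr G n`. -/
def cl (n : ℕ) (x : G) (hx : x ∈ gam G n) : gr G n :=
  Additive.ofMul (QuotientGroup.mk (⟨x, hx⟩ : gam G n) : grMul G n)

theorem cl_surj {n : ℕ} (a : gr G n) : ∃ (x : G) (hx : x ∈ gam G n), cl n x hx = a := by
  obtain ⟨⟨x, hx⟩, h⟩ := QuotientGroup.mk_surjective (Additive.toMul a : grMul G n)
  exact ⟨x, hx, by unfold cl; rw [h]; rfl⟩

theorem cl_mul {n : ℕ} (x y : G) (hx : x ∈ gam G n) (hy : y ∈ gam G n) :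
    cl n (x * y) ((gam G n).mul_mem hx hy) = cl n x hx + cl n y hy := rfl

theorem cl_inv {n : ℕ} (x : G) (hx : x ∈ gam G n) :
    cl n (x⁻¹) ((gam G n).inv_mem hx) = - cl n x hx := rfl

theorem cl_one {n : ℕ} : cl n (1 : G) (gam G n).one_mem = 0 := rfl

theorem cl_eq {n : ℕ} {x y : G} (hx : x ∈ gam G n) (hy : y ∈ gam G n) :
    cl n x hx = cl n y hy ↔ x⁻¹ * y ∈ gam G (n + 1) := by
  have h1 : cl n x hx = cl n y hy ↔ (QuotientGroup.mk (⟨x, hx⟩ : gam G n) : grMul G n) =
      QuotientGroup.mk (⟨y, hy⟩ : gam G n) := Iff.rfl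
  rw [h1, QuotientGroup.eq, Subgroup.mem_subgroupOf]
  rfl

theorem cl_eq_zero {n : ℕ} {x : G} (hx : x ∈ gam G n) :
    cl n x hx = 0 ↔ x ∈ gam G (n + 1) := by
  rw [← cl_one, cl_eq, mul_one, inv_mem_iff]

theorem cl_congr {n : ℕ} {x y : G} (hx : x ∈ gam G n) (h : x = y) :
    cl n x hx = cl n y (h ▸ hx) := by subst h; rfl

/-- conjugation does not change classes -/
theorem cl_conj {n : ℕ} (x g : G) (hx : x ∈ gam G n) :
    cl n (g * x * g⁻¹) (conj_mem hx g) = cl n x hx := by
  rw [eq_comm, cl_eq]
  have h : x⁻¹ * (g * x * g⁻¹) = cm (x⁻¹) g := by simp [cm, mul_assoc]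
  rw [h]
  exact mem_of_le (by omega) (cm_mem ((gam G n).inv_mem hx) (mem_zero g))

theorem cl_cm_mul_right {m n : ℕ} (x y z : G) (hx : x ∈ gam G m) (hy : y ∈ gam G n)
    (hz : z ∈ gam G n) :
    cl (m + n + 1) (cm x (y * z)) (cm_mem hx ((gam G n).mul_mem hy hz)) =
      cl (m + n + 1) (cm x y) (cm_mem hx hy) + cl (m + n + 1) (cm x z) (cm_mem hx hz) := by
  have h : cm x (y * z) = cm x y * (y * cm x z * y⁻¹) := by simp [cm, mul_assoc]
  rw [← cl_conj (cm x z) y (cm_mem hx hz), ← cl_mul]
  exact cl_congr _ h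

theorem cl_cm_mul_left {m n : ℕ} (x y z : G) (hx : x ∈ gam G m) (hy : y ∈ gam G m)
    (hz : z ∈ gam G n) :
    cl (m + n + 1) (cm (x * y) z) (cm_mem ((gam G m).mul_mem hx hy) hz) =
      cl (m + n + 1) (cm x z) (cm_mem hx hz) + cl (m + n + 1) (cm y z) (cm_mem hy hz) := by
  have h : cm (x * y) z = (x * cm y z * x⁻¹) * cm x z := by simp [cm, mul_assoc]
  rw [← cl_conj (cm y z) x (cm_mem hy hz)]
  refine Eq.trans ?_ (add_comm _ _)
  rw [← cl_mul]
  exact cl_congr _ h

end Classes

section Bracket

variable (G : Type u) [Group G]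

/-- For fixed `x` in `gam G m`, the map `y ↦ [x,y]` on components. -/
def brRight (m n : ℕ) (x : G) (hx : x ∈ gam G m) : gr G n →+ gr G (m + n + 1) :=
  MonoidHom.toAdditive
    (QuotientGroup.lift ((gam G (n + 1)).subgroupOf (gam G n))
      { toFun := fun y : gam G n =>
          (Additive.toMul (cl (m + n + 1) (cm x (y : G)) (cm_mem hx y.2)) :
            grMul G (m + n + 1))
        map_one' := by
          have h : cm x ((1 : gam G n) : G) = 1 := by simp [cm]
          rw [cl_congr _ h]; rfl
        map_mul' := by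
          intro y z
          exact congrArg Additive.toMul (cl_cm_mul_right x (y : G) (z : G) hx y.2 z.2) }
      (by
        intro y hy
        rw [Subgroup.mem_subgroupOf] at hy
        rw [MonoidHom.mem_ker]
        change Additive.toMul (cl (m + n + 1) (cm x (y : G)) _) =
          Additive.toMul (0 : gr G (m + n + 1))
        exact congrArg Additive.toMul
          ((cl_eq_zero _).mpr (mem_of_le (by omega) (cm_mem hx hy)))))

theorem brRight_cl (m n : ℕ) (x y : G) (hx : x ∈ gam G m) (hy : y ∈ gam G n) :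
    brRight G m n x hx (cl n y hy) = cl (m + n + 1) (cm x y) (cm_mem hx hy) := rfl

/-- The bracket of two components: `[x gam, y gam] = [x,y] gam`. -/
def br (m n : ℕ) : gr G m →+ gr G n →+ gr G (m + n + 1) :=
  MonoidHom.toAdditive
    (QuotientGroup.lift ((gam G (m + 1)).subgroupOf (gam G m))
      { toFun := fun x : gam G m =>
          (Multiplicative.ofAdd (brRight G m n (x : G) x.2) :
            Multiplicative (gr G n →+ gr G (m + n + 1)))
        map_one' := by
          apply congrArg Multiplicative.ofAdd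
          ext a
          obtain ⟨y, hy, rfl⟩ := cl_surj a
          rw [brRight_cl, AddMonoidHom.zero_apply]
          have h : cm ((1 : gam G m) : G) y = 1 := by simp [cm]
          rw [cl_congr _ h]; rfl
        map_mul' := by
          intro x x'
          apply congrArg Multiplicative.ofAdd
          ext a
          obtain ⟨y, hy, rfl⟩ := cl_surj a
          change brRight G m n ((x : G) * (x' : G)) _ (cl n y hy) =
            brRight G m n (x : G) x.2 (cl n y hy) + brRight G m n (x' : G) x'.2 (cl n y hy)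
          rw [brRight_cl, brRight_cl, brRight_cl]
          exact cl_cm_mul_left (x : G) (x' : G) y x.2 x'.2 hy }
      (by
        intro x hx
        rw [Subgroup.mem_subgroupOf] at hx
        rw [MonoidHom.mem_ker]
        change Multiplicative.ofAdd (brRight G m n (x : G) x.2) = Multiplicative.ofAdd 0
        congr 1
        ext a
        obtain ⟨y, hy, rfl⟩ := cl_surj a
        rw [brRight_cl, AddMonoidHom.zero_apply, cl_eq_zero]
        exact mem_of_le (by omega) (cm_mem hx hy)))

theorem br_cl (m n : ℕ) (x y : G) (hx : x ∈ gam G m) (hy : y ∈ gam G n) :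
    br G m n (cl m x hx) (cl n y hy) = cl (m + n + 1) (cm x y) (cm_mem hx hy) := rfl

/-- The bracket of the associated Lie ring, as a biadditive map. -/
noncomputable def brHom : AssocLie G →+ AssocLie G →+ AssocLie G :=
  DirectSum.toAddMonoid fun m =>
    AddMonoidHom.flip <| DirectSum.toAddMonoid fun n =>
      AddMonoidHom.flip <| (DirectSum.of (gr G) (m + n + 1)).compHom.comp (br G m n)

end Bracket

section Cls

variable {G : Type u} [Group G]

/-- The class of `x` in `gam G n`, seen in the associated Lie ring. -/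
def cls (n : ℕ) (x : G) (hx : x ∈ gam G n) : AssocLie G :=
  DirectSum.of (gr G) n (cl n x hx)

theorem cls_congr {m n : ℕ} {x y : G} (hx : x ∈ gam G m) (hy : y ∈ gam G n)
    (h : m = n) (hxy : x = y) : cls m x hx = cls n y hy := by
  subst h; subst hxy; rfl

theorem brHom_cls {m n : ℕ} {x y : G} (hx : x ∈ gam G m) (hy : y ∈ gam G n) :
    brHom G (cls m x hx) (cls n y hy) = cls (m + n + 1) (cm x y) (cm_mem hx hy) := by
  unfold brHom cls
  rw [DirectSum.toAddMonoid_of, AddMonoidHom.flip_apply, DirectSum.toAddMonoid_of,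
    AddMonoidHom.flip_apply]
  rfl

theorem cls_mul {n : ℕ} {x y : G} (hx : x ∈ gam G n) (hy : y ∈ gam G n) :
    cls n (x * y) ((gam G n).mul_mem hx hy) = cls n x hx + cls n y hy := by
  unfold cls; rw [cl_mul, map_add]

theorem cls_inv {n : ℕ} {x : G} (hx : x ∈ gam G n) :
    cls n (x⁻¹) ((gam G n).inv_mem hx) = - cls n x hx := by
  unfold cls; rw [cl_inv, map_neg]

theorem cls_one {n : ℕ} : cls n (1 : G) (gam G n).one_mem = 0 := by
  unfold cls; rw [cl_one, map_zero]

theorem cls_eq {n : ℕ} {x y : G} (hx : x ∈ gam G n) (hy : y ∈ gam G n) :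
    cls n x hx = cls n y hy ↔ x⁻¹ * y ∈ gam G (n + 1) := by
  unfold cls
  rw [(DirectSum.of_injective (β := gr G) n).eq_iff, cl_eq]

theorem cls_eq_zero {n : ℕ} {x : G} (hx : x ∈ gam G n) :
    cls n x hx = 0 ↔ x ∈ gam G (n + 1) := by
  rw [← cls_one, cls_eq, mul_one, inv_mem_iff]

theorem assoc_induction {p : AssocLie G → Prop} (h0 : p 0)
    (hc : ∀ (n : ℕ) (x : G) (hx : x ∈ gam G n), p (cls n x hx))
    (ha : ∀ a b, p a → p b → p (a + b)) (a : AssocLie G) : p a := by
  induction a using DirectSum.induction_on with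
  | zero => exact h0
  | of n a =>
    obtain ⟨x, hx, rfl⟩ := cl_surj a
    exact hc n x hx
  | add a b iha ihb => exact ha a b iha ihb

theorem brHom_antisymm (a b : AssocLie G) : brHom G a b = - brHom G b a := by
  induction a using assoc_induction with
  | h0 => simp
  | ha a a' h h' => rw [map_add, AddMonoidHom.add_apply, h, h', map_add, neg_add]
  | hc m x hx =>
    induction b using assoc_induction with
    | h0 => simp
    | ha b b' h h' => rw [map_add, h, h', map_add, AddMonoidHom.add_apply, neg_add]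
    | hc n y hy =>
      rw [brHom_cls, brHom_cls, ← cls_inv]
      apply cls_congr
      · omega
      · simp [cm, mul_assoc]

theorem brHom_self (a : AssocLie G) : brHom G a a = 0 := by
  induction a using assoc_induction with
  | h0 => simp
  | ha a b h h' =>
    simp only [map_add, AddMonoidHom.add_apply, h, h']
    rw [brHom_antisymm a b]
    abel
  | hc m x hx =>
    rw [brHom_cls, ← cls_one (n := m + m + 1)]
    apply cls_congr _ _ rfl
    simp [cm]

theorem comm_of_mem (M : Subgroup G) [M.Normal] {p q : G} (h : cm p q ∈ M) :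
    QuotientGroup.mk' M p * QuotientGroup.mk' M q =
      QuotientGroup.mk' M q * QuotientGroup.mk' M p := by
  have h1 : QuotientGroup.mk' M (cm p q) = 1 := by
    rw [← MonoidHom.mem_ker, QuotientGroup.ker_mk']; exact h
  have h2 : p * q = cm p q * (q * p) := by simp [cm]
  rw [← map_mul, h2, map_mul, h1, one_mul, map_mul]

theorem jacobi_mem {a b c : ℕ} {x y z : G} (hx : x ∈ gam G a) (hy : y ∈ gam G b)
    (hz : z ∈ gam G c) :
    (cm x (cm y z))⁻¹ * (cm (cm x y) z * cm y (cm x z)) ∈ gam G (a + b + c + 3) := by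
  set M := gam G (a + b + c + 3) with hM
  set π := QuotientGroup.mk' M with hπ
  set u := cm x y with hu
  set v := cm x z with hv
  set w := cm y z with hw
  have hum : u ∈ gam G (a + b + 1) := cm_mem hx hy
  have hvm : v ∈ gam G (a + c + 1) := cm_mem hx hz
  have hwm : w ∈ gam G (b + c + 1) := cm_mem hy hz
  have hyv : cm y v ∈ gam G (b + (a + c + 1) + 1) := cm_mem hy hvm
  have huz : cm u z ∈ gam G (a + b + 1 + c + 1) := cm_mem hum hz
  have k1 : cm u v ∈ M := mem_of_le (by omega) (cm_mem hum hvm)
  have k2 : cm v w ∈ M := mem_of_le (by omega) (cm_mem hvm hwm)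
  have k3 : cm v (cm u z) ∈ M := mem_of_le (by omega) (cm_mem hvm huz)
  have k4 : cm u (cm y v) ∈ M := mem_of_le (by omega) (cm_mem hum hyv)
  have k5 : cm u w ∈ M := mem_of_le (by omega) (cm_mem hum hwm)
  have k6 : cm w (cm u z) ∈ M := mem_of_le (by omega) (cm_mem hwm huz)
  have k7 : cm (cm y v) (cm u z) ∈ M := mem_of_le (by omega) (cm_mem hyv huz)
  have e1 : π (cm u v) = 1 := by
    rw [← MonoidHom.mem_ker, QuotientGroup.ker_mk']; exact k1
  have e2 := comm_of_mem M k2
  have e3 := comm_of_mem M k3
  have e4 := comm_of_mem M k4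
  have e5 := comm_of_mem M k5
  have e6 := comm_of_mem M k6
  have e7 := comm_of_mem M k7
  rw [← hπ] at e2 e3 e4 e5 e6 e7
  have hid : cm x w = u * (cm y v * (v * w * v⁻¹)) * u⁻¹ * (cm u v * (v * cm u z * v⁻¹)) * w⁻¹ := by
    simp [cm, hu, hv, hw, mul_assoc]
  have key : π (cm x w) = π (cm u z) * π (cm y v) := by
    rw [hid]
    simp only [map_mul, map_inv, e1, one_mul]
    have a1 : π v * π w * (π v)⁻¹ = π w := by rw [e2]; group
    have a2 : π v * π (cm u z) * (π v)⁻¹ = π (cm u z) := by rw [e3]; group
    rw [a1, a2]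
    have a3 : π u * (π (cm y v) * π w) * (π u)⁻¹ = π (cm y v) * π w := by
      rw [← mul_assoc, e4, mul_assoc (π (cm y v)), e5]; group
    rw [a3]
    calc π (cm y v) * π w * π (cm u z) * (π w)⁻¹
        = π (cm y v) * (π w * π (cm u z)) * (π w)⁻¹ := by group
      _ = π (cm y v) * π (cm u z) := by rw [e6]; group
      _ = _ := e7
  have : (cm x w)⁻¹ * (cm u z * cm y v) ∈ M := by
    rw [← QuotientGroup.ker_mk' M, MonoidHom.mem_ker, ← hπ, map_mul, map_inv, key, map_mul]
    group
  exact this

theorem brHom_leibniz (a b c : AssocLie G) :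
    brHom G a (brHom G b c) = brHom G (brHom G a b) c + brHom G b (brHom G a c) := by
  induction a using assoc_induction with
  | h0 => simp
  | ha a a' h h' =>
    simp only [map_add, AddMonoidHom.add_apply] at h h' ⊢
    rw [h, h']; abel
  | hc i x hx =>
    induction b using assoc_induction with
    | h0 => simp
    | ha b b' h h' =>
      simp only [map_add, AddMonoidHom.add_apply] at h h' ⊢
      rw [h, h']; abel
    | hc j y hy =>
      induction c using assoc_induction with
      | h0 => simp
      | ha c c' h h' =>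
        simp only [map_add] at h h' ⊢
        rw [h, h']; abel
      | hc k z hz =>
        rw [brHom_cls, brHom_cls, brHom_cls, brHom_cls, brHom_cls, brHom_cls]
        have h1 : cm x (cm y z) ∈ gam G (i + j + k + 2) :=
          mem_of_le (by omega) (cm_mem hx (cm_mem hy hz))
        have h2 : cm (cm x y) z ∈ gam G (i + j + k + 2) :=
          mem_of_le (by omega) (cm_mem (cm_mem hx hy) hz)
        have h3 : cm y (cm x z) ∈ gam G (i + j + k + 2) :=
          mem_of_le (by omega) (cm_mem hy (cm_mem hx hz))
        rw [cls_congr (cm_mem hx (cm_mem hy hz)) h1 (by omega) rfl,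
          cls_congr (cm_mem (cm_mem hx hy) hz) h2 (by omega) rfl,
          cls_congr (cm_mem hy (cm_mem hx hz)) h3 (by omega) rfl, ← cls_mul, cls_eq]
        exact jacobi_mem hx hy hz

end Cls

section LieRingInstance

variable (G : Type u) [Group G]

/-- The associated Lie ring of a group. -/
noncomputable instance assocLieRing : LieRing (AssocLie G) where
  bracket a b := brHom G a b
  add_lie a b c := by
    change brHom G (a + b) c = brHom G a c + brHom G b c
    rw [map_add, AddMonoidHom.add_apply]
  lie_add a b c := by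
    change brHom G a (b + c) = brHom G a b + brHom G a c
    rw [map_add]
  lie_self a := brHom_self a
  leibniz_lie a b c := brHom_leibniz a b c

end LieRingInstance

section Burnside

/-- The Lie ring homomorphism from the free Lie ring on `X` to the associated Lie ring of the
free Burnside group, sending each free generator to the degree-one class of the corresponding
group generator. -/
noncomputable def toAssocLie (q : ℕ) (X : Type u) :
    FreeLieAlgebra ℤ X →ₗ⁅ℤ⁆ AssocLie (Burnside q X) :=
  FreeLieAlgebra.lift ℤ fun x =>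
    cls 0 (QuotientGroup.mk (FreeGroup.of x) : Burnside q X) (mem_zero _)

end Burnside

end Pool.Agent.W_MP_21427b_al
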