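import Pool.Agent.W_MP_21427b_al.AssocLie

/-!
Baer correspondence for groups of class at most two and exponent dividing nine.
-/

namespace Pool.Agent.W_MP_21427b_al

universe u v

/-- groups of class at most two and exponent dividing nine -/
class IsBaer (B : Type u) [Group B] : Prop where
  cent : ∀ a b c : B, cm a b * c = c * cm a b
  exp9 : ∀ a : B, a ^ 9 = 1

section Class2

variable {B : Type u} [Group B] [IsBaer B]

theorem cm_cent (a b c : B) : cm a b * c = c * cm a b := IsBaer.cent a b c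

theorem cm_comm' (a b c : B) : Commute (cm a b) c := IsBaer.cent a b c

omit [IsBaer B] in
theorem mul_eq_cm (a b : B) : a * b = cm a b * (b * a) := by simp [cm]

theorem cm_mul_left (a b c : B) : cm (a * b) c = cm a c * cm b c := by
  have h : cm (a * b) c = (a * cm b c * a⁻¹) * cm a c := by simp [cm, mul_assoc]
  rw [h, ← cm_cent b c a, mul_inv_cancel_right, cm_cent b c (cm a c)]

theorem cm_mul_right (a b c : B) : cm a (b * c) = cm a b * cm a c := by
  have h : cm a (b * c) = cm a b * (b * cm a c * b⁻¹) := by simp [cm, mul_assoc]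
  rw [h, ← cm_cent a c b, mul_inv_cancel_right]

omit [IsBaer B] in
theorem cm_swap (a b : B) : cm b a = (cm a b)⁻¹ := by simp [cm, mul_assoc]

omit [IsBaer B] in
theorem cm_self (a : B) : cm a a = 1 := by simp [cm]

omit [IsBaer B] in
theorem cm_one_left (a : B) : cm (1 : B) a = 1 := by simp [cm]

omit [IsBaer B] in
theorem cm_one_right (a : B) : cm a (1 : B) = 1 := by simp [cm]

theorem cm_inv_left (a b : B) : cm a⁻¹ b = (cm a b)⁻¹ := by
  have h := cm_mul_left a⁻¹ a b
  rw [inv_mul_cancel, cm_one_left] at h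
  exact eq_inv_of_mul_eq_one_left h.symm

theorem cm_inv_right (a b : B) : cm a b⁻¹ = (cm a b)⁻¹ := by
  have h := cm_mul_right a b⁻¹ b
  rw [inv_mul_cancel, cm_one_right] at h
  exact eq_inv_of_mul_eq_one_left h.symm

theorem cm_cm_left (a b c : B) : cm (cm a b) c = 1 := by
  unfold cm
  have := cm_cent a b c
  unfold cm at this
  rw [this]; group

theorem cm_cm_right (a b c : B) : cm c (cm a b) = 1 := by
  rw [cm_swap, cm_cm_left, inv_one]

theorem cm_pow_left (a b c : B) (n : ℕ) : cm (cm a b ^ n) c = 1 := by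
  induction n with
  | zero => rw [pow_zero, cm_one_left]
  | succ n ih => rw [pow_succ, cm_mul_left, ih, cm_cm_left, one_mul]

theorem cm_pow_right (a b c : B) (n : ℕ) : cm c (cm a b ^ n) = 1 := by
  rw [cm_swap, cm_pow_left, inv_one]

end Class2

/-- The Baer sum. -/
def bAdd {B : Type u} [Group B] (a b : B) : B := a * b * (cm b a) ^ 5

section AddLemmas

variable {B : Type u} [Group B] [IsBaer B]

omit [IsBaer B] in
theorem pow5_inv (c : B) (h : c ^ 9 = 1) : c * (c⁻¹) ^ 5 = c ^ 5 := by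
  have h1 : c ^ 5 * c ^ 4 = 1 := by rw [← pow_add]; exact h
  have h2 : c ^ 5 = (c ^ 4)⁻¹ := eq_inv_of_mul_eq_one_left h1
  rw [h2]; group

theorem bAdd_assoc (a b c : B) : bAdd (bAdd a b) c = bAdd a (bAdd b c) := by
  unfold bAdd
  rw [cm_mul_right c (a * b), cm_pow_right, mul_one, cm_mul_right, cm_mul_left (b * c),
    cm_pow_left, mul_one, cm_mul_left,
    (cm_comm' c a (cm c b)).mul_pow, (cm_comm' b a (cm c a)).mul_pow]
  have e1 : a * b * (cm b a) ^ 5 * c = a * b * c * (cm b a) ^ 5 := by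
    rw [mul_assoc (a * b), ((cm_comm' b a c).pow_left 5).eq, mul_assoc (a * b)]
  rw [e1]
  have e2 : a * (b * c * (cm c b) ^ 5) = a * b * c * (cm c b) ^ 5 := by
    simp only [mul_assoc]
  rw [e2]
  have e3 : (cm c b) ^ 5 * ((cm b a) ^ 5 * (cm c a) ^ 5) =
      (cm b a) ^ 5 * ((cm c a) ^ 5 * (cm c b) ^ 5) := by
    rw [← mul_assoc, (((cm_comm' c b (cm b a)).pow_pow 5 5)).eq, mul_assoc,
      (((cm_comm' c b (cm c a)).pow_pow 5 5)).eq]
  rw [mul_assoc, mul_assoc (a * b * c), e3]

theorem bAdd_comm (a b : B) : bAdd a b = bAdd b a := by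
  unfold bAdd
  rw [cm_swap a b, mul_eq_cm a b, cm_cent, mul_assoc, pow5_inv _ (IsBaer.exp9 _)]

omit [IsBaer B] in
theorem one_bAdd (a : B) : bAdd 1 a = a := by
  unfold bAdd
  rw [cm_one_right, one_pow, one_mul, mul_one]

omit [IsBaer B] in
theorem bAdd_one (a : B) : bAdd a 1 = a := by
  unfold bAdd
  rw [cm_one_left, one_pow, mul_one, mul_one]

theorem inv_bAdd (a : B) : bAdd a⁻¹ a = 1 := by
  unfold bAdd
  rw [cm_inv_right, cm_self, inv_one, one_pow, inv_mul_cancel, mul_one]

end AddLemmas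

/-- A copy of `B` carrying the Baer addition. -/
@[ext]
structure BaerT (B : Type u) : Type u where
  /-- the embedding of `B` -/
  toB ::
  /-- the underlying element -/
  val : B

export BaerT (toB)

section Add

variable {B : Type u} [Group B] [IsBaer B]

instance baerAdd : Add (BaerT B) := ⟨fun a b => ⟨bAdd a.val b.val⟩⟩

instance baerZero : Zero (BaerT B) := ⟨⟨1⟩⟩

instance baerNeg : Neg (BaerT B) := ⟨fun a => ⟨a.val⁻¹⟩⟩

instance baerAddCommGroup : AddCommGroup (BaerT B) where
  add_assoc a b c := congrArg BaerT.toB (bAdd_assoc a.val b.val c.val)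
  zero_add a := congrArg BaerT.toB (one_bAdd a.val)
  add_zero a := congrArg BaerT.toB (bAdd_one a.val)
  nsmul := nsmulRec
  zsmul := zsmulRec
  neg_add_cancel a := congrArg BaerT.toB (inv_bAdd a.val)
  add_comm a b := congrArg BaerT.toB (bAdd_comm a.val b.val)

theorem toB_mul (a b : B) : toB (a * b * (cm b a) ^ 5) = toB a + toB b := rfl

theorem toB_one : toB (1 : B) = 0 := rfl

theorem toB_inv (a : B) : toB (a⁻¹) = - toB a := rfl

omit [Group B] [IsBaer B] in
theorem toB_inj {a b : B} (h : toB a = toB b) : a = b := congrArg BaerT.val h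

/-- a group endomorphism is additive for the Baer addition -/
def baerEnd (σ : B →* B) : AddMonoid.End (BaerT B) where
  toFun b := toB (σ b.val)
  map_zero' := by
    change toB (σ 1) = 0
    rw [map_one]; rfl
  map_add' a b := by
    change toB (σ (a.val * b.val * (cm b.val a.val) ^ 5)) = toB (σ a.val) + toB (σ b.val)
    rw [← toB_mul]
    congr 1
    rw [map_mul, map_mul, map_pow]
    simp [cm]

theorem baerEnd_apply (σ : B →* B) (b : B) : baerEnd σ (toB b) = toB (σ b) := rfl

theorem nsmul_toB (n : ℕ) (a : B) : n • toB a = toB (a ^ n) := by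
  induction n with
  | zero => rw [zero_smul, pow_zero]; rfl
  | succ n ih =>
    rw [succ_nsmul, ih, ← toB_mul]
    have h : cm a (a ^ n) = 1 := by
      unfold cm
      group
    rw [h, one_pow, mul_one, pow_succ]

theorem nine_nsmul (a : BaerT B) : 9 • a = 0 := by
  change 9 • toB (a.val) = 0
  rw [nsmul_toB, IsBaer.exp9]; rfl

/-- ordered product of the first `n` terms of a sequence -/
def pr (s : ℕ → B) : ℕ → B
  | 0 => 1
  | n + 1 => pr s n * s n

theorem pr_formula (s : ℕ → B) (n : ℕ) :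
    ∃ C S : B, (∀ b, C * b = b * C) ∧ toB S = ∑ i ∈ Finset.range n, toB (s i) ∧
      pr s n = S * C ∧ pr (fun i => (s i)⁻¹) n = S⁻¹ * C := by
  induction n with
  | zero =>
    refine ⟨1, 1, fun b => by rw [one_mul, mul_one], ?_, ?_, ?_⟩
    · rw [Finset.sum_range_zero]; rfl
    · simp [pr]
    · simp [pr]
  | succ n ih =>
    obtain ⟨C, S, hC, hS, h1, h2⟩ := ih
    have hc : ∀ b, (cm (s n) S) * b = b * cm (s n) S := cm_cent _ _
    refine ⟨((cm (s n) S) ^ 5)⁻¹ * C, S * s n * (cm (s n) S) ^ 5, ?_, ?_, ?_, ?_⟩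
    · intro b
      have h3 : Commute (((cm (s n) S) ^ 5)⁻¹) b := ((cm_comm' _ _ b).pow_left 5).inv_left
      have h4 : Commute C b := hC b
      exact (h3.mul_left h4).eq
    · rw [toB_mul, Finset.sum_range_succ, hS]
    · change pr s n * s n = _
      rw [h1, mul_assoc S C, hC (s n)]
      group
    · change pr (fun i => (s i)⁻¹) n * (s n)⁻¹ = _
      rw [h2, mul_assoc S⁻¹ C, hC (s n)⁻¹]
      have e1 : (S * s n * (cm (s n) S) ^ 5)⁻¹ = S⁻¹ * (s n)⁻¹ * (cm (s n) S) ^ 5 := by
        apply toB_inj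
        rw [toB_inv, toB_mul, neg_add, ← toB_inv, ← toB_inv, ← toB_mul]
        rw [cm_inv_left, cm_inv_right, inv_inv]
      rw [e1]
      group

theorem sum_eq_zero_of_pr (s : ℕ → B) (n : ℕ) (h1 : pr s n = 1)
    (h2 : pr (fun i => (s i)⁻¹) n = 1) : ∑ i ∈ Finset.range n, toB (s i) = 0 := by
  obtain ⟨C, S, hC, hS, h3, h4⟩ := pr_formula s n
  rw [h1] at h3
  rw [h2] at h4
  have h5 : S = S⁻¹ := mul_right_cancel (h3.symm.trans h4)
  have h6 : S ^ 2 = 1 := by
    rw [pow_two]; nth_rewrite 1 [h5]; exact inv_mul_cancel S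
  have h7 : S ^ 9 = 1 := IsBaer.exp9 S
  have h8 : S = 1 := by
    have : S ^ 9 = (S ^ 2) ^ 4 * S := by rw [← pow_mul, ← pow_succ]
    rw [this, h6, one_pow, one_mul] at h7
    exact h7
  rw [← hS, h8]; rfl

end Add

end Pool.Agent.W_MP_21427b_al
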