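import Pool.Agent.W_MP_21427b_al.AssocLie

/-!
Functoriality of the associated Lie ring.
-/

namespace Pool.Agent.W_MP_21427b_al

universe u v

section

variable {G : Type u} [Group G] {H : Type v} [Group H] (f : G →* H)

theorem map_mem {n : ℕ} {x : G} (hx : x ∈ gam G n) : f x ∈ gam H n := by
  have h : f x ∈ (gam G n).map f := Subgroup.mem_map_of_mem f hx
  rw [Subgroup.map_lowerCentralSeries] at h
  exact Subgroup.lowerCentralSeries_mono n le_top h

/-- the map on homogeneous components -/
def grMap (n : ℕ) : gr G n →+ gr H n :=
  MonoidHom.toAdditive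
    (QuotientGroup.lift ((gam G (n + 1)).subgroupOf (gam G n))
      { toFun := fun x : gam G n =>
          (Additive.toMul (cl n (f (x : G)) (map_mem f x.2)) : grMul H n)
        map_one' := by
          have h : f ((1 : gam G n) : G) = 1 := map_one f
          rw [cl_congr _ h]; rfl
        map_mul' := by
          intro x y
          have h : f ((x * y : gam G n) : G) = f (x : G) * f (y : G) := map_mul f _ _
          rw [cl_congr _ h]; rfl }
      (by
        intro x hx
        rw [Subgroup.mem_subgroupOf] at hx
        rw [MonoidHom.mem_ker]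
        exact congrArg Additive.toMul
          ((cl_eq_zero (map_mem f x.2)).mpr (map_mem f hx))))

theorem grMap_cl {n : ℕ} (x : G) (hx : x ∈ gam G n) :
    grMap f n (cl n x hx) = cl n (f x) (map_mem f hx) := rfl

/-- the additive map of associated Lie rings -/
noncomputable def assocMapAdd : AssocLie G →+ AssocLie H := DirectSum.map (grMap f)

theorem assocMapAdd_cls {n : ℕ} (x : G) (hx : x ∈ gam G n) :
    assocMapAdd f (cls n x hx) = cls n (f x) (map_mem f hx) := by
  unfold assocMapAdd cls
  rw [DirectSum.map_of, grMap_cl]

theorem lie_cls {m n : ℕ} {x y : G} (hx : x ∈ gam G m) (hy : y ∈ gam G n) :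
    ⁅cls m x hx, cls n y hy⁆ = cls (m + n + 1) (cm x y) (cm_mem hx hy) :=
  brHom_cls hx hy

theorem assocMapAdd_lie (a b : AssocLie G) :
    assocMapAdd f ⁅a, b⁆ = ⁅assocMapAdd f a, assocMapAdd f b⁆ := by
  induction a using assoc_induction with
  | h0 => simp
  | ha a a' h h' => rw [add_lie, map_add, h, h', map_add, add_lie]
  | hc i x hx =>
    induction b using assoc_induction with
    | h0 => simp
    | ha b b' h h' => rw [lie_add, map_add, h, h', map_add, lie_add]
    | hc j y hy =>
      rw [lie_cls, assocMapAdd_cls, assocMapAdd_cls, assocMapAdd_cls, lie_cls]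
      apply cls_congr _ _ rfl
      simp [cm]

/-- the Lie ring homomorphism induced by a group homomorphism -/
noncomputable def assocMap : AssocLie G →ₗ⁅ℤ⁆ AssocLie H :=
  { (assocMapAdd f).toIntLinearMap with
    map_lie' := by
      intro a b
      exact assocMapAdd_lie f a b }

theorem assocMap_cls {n : ℕ} (x : G) (hx : x ∈ gam G n) :
    assocMap f (cls n x hx) = cls n (f x) (map_mem f hx) := assocMapAdd_cls f x hx

end

end Pool.Agent.W_MP_21427b_al
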