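import Pool.Agent.W_MP_21427b_al.Def
import Pool.Agent.W_MP_21427b_al.Functor

/-!
Existence and uniqueness of the associated Lie ring of a group.
-/

namespace Pool.Agent.W_MP_21427b_al

universe u v

section

variable {G : Type u} [Group G] {M : Type v} [LieRing M] (S : AssocLieOf G M)

theorem AssocLieOf.cls_one (n : ℕ) : S.cls n 1 = 0 := by
  rw [S.cls_eq_zero]
  exact (gam G (n + 1)).one_mem

/-- comparison on one component -/
def grTo (n : ℕ) : gr G n →+ M :=
  AddMonoidHom.mk' (fun a => (Multiplicative.toAdd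
      (QuotientGroup.lift ((gam G (n + 1)).subgroupOf (gam G n))
        ({ toFun := fun x => Multiplicative.ofAdd (S.cls n x)
           map_one' := congrArg Multiplicative.ofAdd (S.cls_one n)
           map_mul' := fun x y => congrArg Multiplicative.ofAdd (S.cls_mul n x y) } :
             gam G n →* Multiplicative M)
        (by
          intro x hx
          rw [Subgroup.mem_subgroupOf] at hx
          exact congrArg Multiplicative.ofAdd ((S.cls_eq_zero n x).mpr hx))
        (Additive.toMul a : grMul G n)) : M)) (by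
    intro a b
    change Multiplicative.toAdd (QuotientGroup.lift _ _ _
      ((Additive.toMul a : grMul G n) * (Additive.toMul b : grMul G n))) = _
    rw [map_mul]; rfl)

theorem grTo_cl {n : ℕ} (x : G) (hx : x ∈ gam G n) : grTo S n (cl n x hx) = S.cls n ⟨x, hx⟩ := rfl

theorem grTo_eq_zero {n : ℕ} (a : gr G n) (h : grTo S n a = 0) : a = 0 := by
  obtain ⟨x, hx, rfl⟩ := cl_surj a
  rw [grTo_cl, S.cls_eq_zero] at h
  exact (cl_eq_zero hx).mpr h

/-- the additive comparison map -/
noncomputable def thetaAdd : AssocLie G →+ M := DirectSum.toAddMonoid (grTo S)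

theorem thetaAdd_cls {n : ℕ} (x : G) (hx : x ∈ gam G n) :
    thetaAdd S (cls n x hx) = S.cls n ⟨x, hx⟩ := by
  unfold thetaAdd cls
  rw [DirectSum.toAddMonoid_of, grTo_cl]

theorem thetaAdd_lie (a b : AssocLie G) :
    thetaAdd S ⁅a, b⁆ = ⁅thetaAdd S a, thetaAdd S b⁆ := by
  induction a using assoc_induction with
  | h0 => simp
  | ha a a' h h' => rw [add_lie, map_add, h, h', map_add, add_lie]
  | hc i x hx =>
    induction b using assoc_induction with
    | h0 => simp
    | ha b b' h h' => rw [lie_add, map_add, h, h', map_add, lie_add]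
    | hc j y hy =>
      rw [lie_cls, thetaAdd_cls, thetaAdd_cls, thetaAdd_cls]
      exact (S.lie_cls i j ⟨x, hx⟩ ⟨y, hy⟩ ⟨cm x y, cm_mem hx hy⟩ rfl).symm

theorem thetaAdd_inj (a : AssocLie G) (h : thetaAdd S a = 0) : a = 0 := by
  classical
  have hx : ∀ n, ∃ x : gam G n, cl n (x : G) x.2 = a n := by
    intro n
    obtain ⟨x, hx, e⟩ := cl_surj (a n)
    exact ⟨⟨x, hx⟩, e⟩
  choose x hx using hx
  have e : a = ∑ n ∈ DFinsupp.support a, cls n (x n : G) (x n).2 := by
    conv_lhs => rw [← DirectSum.sum_support_of a]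
    refine Finset.sum_congr rfl fun n _ => ?_
    unfold cls
    rw [hx n]
  have e2 : thetaAdd S a = ∑ n ∈ DFinsupp.support a, S.cls n (x n) := by
    conv_lhs => rw [e]
    rw [map_sum]
    refine Finset.sum_congr rfl fun n _ => ?_
    rw [thetaAdd_cls]
  rw [h] at e2
  have h3 := S.indep _ x e2.symm
  rw [e]
  refine Finset.sum_eq_zero fun n hn => ?_
  have h4 := h3 n hn
  rw [S.cls_eq_zero] at h4
  exact (cls_eq_zero _).mpr h4

/-- the comparison homomorphism -/
noncomputable def theta : AssocLie G →ₗ⁅ℤ⁆ M :=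
  { (thetaAdd S).toIntLinearMap with
    map_lie' := by
      intro a b
      exact thetaAdd_lie S a b }

theorem theta_cls {n : ℕ} (x : G) (hx : x ∈ gam G n) :
    theta S (cls n x hx) = S.cls n ⟨x, hx⟩ := thetaAdd_cls S x hx

theorem theta_inj (a : AssocLie G) (h : theta S a = 0) : a = 0 := thetaAdd_inj S a h

end

section

variable (G : Type u) [Group G]

/-- the associated Lie ring exists -/
noncomputable def assocStr : AssocLieOf G (AssocLie G) where
  cls n x := cls n (x : G) x.2
  cls_mul n x y := cls_mul x.2 y.2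
  cls_eq_zero n x := cls_eq_zero x.2
  lie_cls m n x y z hz := by
    rw [lie_cls]
    exact cls_congr _ _ rfl hz.symm
  span v := by
    classical
    have hx : ∀ n, ∃ x : gam G n, cl n (x : G) x.2 = v n := by
      intro n
      obtain ⟨x, hx, e⟩ := cl_surj (v n)
      exact ⟨⟨x, hx⟩, e⟩
    choose x hx using hx
    refine ⟨DFinsupp.support v, x, ?_⟩
    conv_lhs => rw [← DirectSum.sum_support_of v]
    refine Finset.sum_congr rfl fun n _ => ?_
    unfold cls
    rw [hx n]
  indep s x h := by
    intro n hn
    have h2 := congrArg (fun v : AssocLie G => v n) h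
    have h3 : (∑ m ∈ s, cls m (x m : G) (x m).2 : AssocLie G) n = cl n (x n : G) (x n).2 := by
      rw [DFinsupp.finsetSum_apply]
      rw [Finset.sum_eq_single n]
      · unfold cls
        exact DirectSum.of_eq_same n _
      · intro m _ hm
        unfold cls
        exact DirectSum.of_eq_of_ne m n _ hm.symm
      · intro h; exact absurd hn h
    have h4 : cl n (x n : G) (x n).2 = 0 := h3.symm.trans h2
    unfold cls
    rw [h4, map_zero]

end

section

variable {q : ℕ} {X : Type u} {M : Type v} [LieRing M] (S : AssocLieOf (Burnside q X) M)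

theorem canon_eq (v : FreeLieAlgebra ℤ X) : canon S v = theta S (toAssocLie q X v) := by
  have h : canon S = (theta S).comp (toAssocLie q X) := by
    apply FreeLieAlgebra.hom_ext
    intro x
    have e1 : canon S (FreeLieAlgebra.of ℤ x) =
        S.cls 0 ⟨QuotientGroup.mk (FreeGroup.of x), Subgroup.mem_top _⟩ :=
      FreeLieAlgebra.lift_of_apply (R := ℤ) _ x
    have e2 : toAssocLie q X (FreeLieAlgebra.of ℤ x) =
        cls 0 (QuotientGroup.mk (FreeGroup.of x) : Burnside q X) (mem_zero _) :=
      FreeLieAlgebra.lift_of_apply (R := ℤ) _ x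
    have e3 : ((theta S).comp (toAssocLie q X)) (FreeLieAlgebra.of ℤ x) =
        theta S (toAssocLie q X (FreeLieAlgebra.of ℤ x)) := rfl
    rw [e2, theta_cls] at e3
    exact e1.trans e3.symm
  rw [h]; rfl

theorem canon_eq_zero (v : FreeLieAlgebra ℤ X) : canon S v = 0 ↔ toAssocLie q X v = 0 := by
  rw [canon_eq]
  constructor
  · exact theta_inj S _
  · intro h
    rw [h]
    exact map_zero (thetaAdd S)

end

end Pool.Agent.W_MP_21427b_al
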