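import Mathlib

/-!
Definitions for the statement on the associated Lie ring of the free Burnside group.
-/

namespace Pool.Agent.W_MP_21427b_al

universe u v

/-- A structure of this type exhibits the Lie ring `M` as the associated Lie ring of the group
`G`. Here `Subgroup.lowerCentralSeries ⊤ n` is the term gamma_{n+1}(G) of the lower central
series, and `cls n` sends an element of gamma_{n+1}(G) to its class in the homogeneous component
gamma_{n+1}(G)/gamma_{n+2}(G) of `M`. -/
structure AssocLieOf (G : Type u) [Group G] (M : Type v) [LieRing M] where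
  /-- the class of an element of gamma_{n+1}(G) -/
  cls : (n : ℕ) → Subgroup.lowerCentralSeries (⊤ : Subgroup G) n → M
  /-- the classes are additive -/
  cls_mul : ∀ (n : ℕ) (x y : Subgroup.lowerCentralSeries (⊤ : Subgroup G) n),
    cls n (x * y) = cls n x + cls n y
  /-- the kernel of the class map on gamma_{n+1}(G) is gamma_{n+2}(G) -/
  cls_eq_zero : ∀ (n : ℕ) (x : Subgroup.lowerCentralSeries (⊤ : Subgroup G) n),
    cls n x = 0 ↔ (x : G) ∈ Subgroup.lowerCentralSeries (⊤ : Subgroup G) (n + 1)
  /-- the bracket is induced by the group commutator -/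
  lie_cls : ∀ (m n : ℕ) (x : Subgroup.lowerCentralSeries (⊤ : Subgroup G) m)
    (y : Subgroup.lowerCentralSeries (⊤ : Subgroup G) n)
    (z : Subgroup.lowerCentralSeries (⊤ : Subgroup G) (m + n + 1)),
    (z : G) = (x : G) * (y : G) * (x : G)⁻¹ * (y : G)⁻¹ → ⁅cls m x, cls n y⁆ = cls (m + n + 1) z
  /-- the components generate `M` -/
  span : ∀ v : M, ∃ (s : Finset ℕ)
    (x : (n : ℕ) → Subgroup.lowerCentralSeries (⊤ : Subgroup G) n), v = ∑ n ∈ s, cls n (x n)
  /-- the sum of the components is direct -/
  indep : ∀ (s : Finset ℕ) (x : (n : ℕ) → Subgroup.lowerCentralSeries (⊤ : Subgroup G) n),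
    ∑ n ∈ s, cls n (x n) = 0 → ∀ n ∈ s, cls n (x n) = 0

/-- The free Burnside group of exponent `q` on the set `X`: the quotient of the free group by the
normal closure of all `q`-th powers. -/
abbrev Burnside (q : ℕ) (X : Type u) : Type u :=
  FreeGroup X ⧸ Subgroup.normalClosure {g : FreeGroup X | ∃ h : FreeGroup X, g = h ^ q}

/-- The canonical Lie ring homomorphism from the free Lie ring on `X` to the associated Lie ring
`M` of the free Burnside group: it sends each free generator to the degree-one class of the
corresponding generator of the group. -/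
noncomputable def canon {q : ℕ} {X : Type u} {M : Type v} [LieRing M]
    (S : AssocLieOf (Burnside q X) M) : FreeLieAlgebra ℤ X →ₗ⁅ℤ⁆ M :=
  FreeLieAlgebra.lift ℤ fun x =>
    S.cls 0 ⟨QuotientGroup.mk (FreeGroup.of x), Subgroup.mem_top _⟩

/-- A set of elements of the free Lie ring on `X` is fully invariant when every endomorphism of
this Lie ring maps it into itself. -/
def FullyInv {X : Type u} (J : Set (FreeLieAlgebra ℤ X)) : Prop :=
  ∀ φ : FreeLieAlgebra ℤ X →ₗ⁅ℤ⁆ FreeLieAlgebra ℤ X, ∀ v ∈ J, φ v ∈ J

end Pool.Agent.W_MP_21427b_al
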