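import Pool.Agent.W_MP_21427b_al.PartII
import Pool.Agent.W_MP_21427b_al.Compare

/-!
The relation of degree twelve and its image under a substitution.
-/

namespace Pool.Agent.W_MP_21427b_al

universe u

theorem burnside_pow (q : ℕ) (X : Type u) (g : Burnside q X) : g ^ q = 1 := by
  obtain ⟨h, rfl⟩ := QuotientGroup.mk_surjective g
  rw [← QuotientGroup.mk_pow, QuotientGroup.eq_one_iff]
  exact Subgroup.subset_normalClosure ⟨h, rfl⟩

theorem toAssocLie_of (q : ℕ) (X : Type u) (x : X) :
    toAssocLie q X (FreeLieAlgebra.of ℤ x) =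
      cls 0 (QuotientGroup.mk (FreeGroup.of x) : Burnside q X) (mem_zero _) :=
  FreeLieAlgebra.lift_of_apply (R := ℤ)
    (fun x => cls 0 (QuotientGroup.mk (FreeGroup.of x) : Burnside q X) (mem_zero _)) x

section

variable (X : Type u) (e : Fin 4 ↪ X)

/-- the free generators -/
noncomputable abbrev gen (i : Fin 4) : FreeLieAlgebra ℤ X := FreeLieAlgebra.of ℤ (e i)

/-- the relation of degree twelve -/
noncomputable def rel12 : FreeLieAlgebra ℤ X :=
  vee (gen X e 3) (gen X e 2) ⁅gen X e 1, ⁅gen X e 1, ⁅gen X e 2, gen X e 0⁆⁆⁆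

theorem rel12_mem : toAssocLie 9 X (rel12 X e) = 0 := by
  unfold rel12 gen
  rw [map_vee, LieHom.map_lie, LieHom.map_lie, LieHom.map_lie, toAssocLie_of, toAssocLie_of,
    toAssocLie_of, toAssocLie_of, lie_cls, lie_cls, lie_cls]
  exact vee_zero (burnside_pow 9 X) _ _ _

open Classical in
/-- the substitution of a commutator for the last generator -/
noncomputable def sub : FreeLieAlgebra ℤ X →ₗ⁅ℤ⁆ FreeLieAlgebra ℤ X :=
  FreeLieAlgebra.lift ℤ fun t => if t = e 3 then ⁅gen X e 1, gen X e 2⁆ else FreeLieAlgebra.of ℤ t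

open Classical in
theorem sub_of (t : X) : sub X e (FreeLieAlgebra.of ℤ t) =
    if t = e 3 then ⁅gen X e 1, gen X e 2⁆ else FreeLieAlgebra.of ℤ t :=
  FreeLieAlgebra.lift_of_apply (R := ℤ)
    (fun t => if t = e 3 then ⁅gen X e 1, gen X e 2⁆ else FreeLieAlgebra.of ℤ t) t

theorem sub_last : sub X e (gen X e 3) = ⁅gen X e 1, gen X e 2⁆ := by
  rw [gen, sub_of, if_pos rfl]

theorem sub_other (i : Fin 4) (hi : i ≠ 3) : sub X e (gen X e i) = gen X e i := by
  rw [gen, sub_of, if_neg (fun h => hi (e.injective h))]

open Classical in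
/-- the images of the group generators in the finite group -/
noncomputable def img (t : X) : HH :=
  if t = e 0 then zed else if t = e 1 then el hx else if t = e 2 then el hy else 1

/-- the homomorphism to the finite group of exponent nine -/
noncomputable def psi : Burnside 9 X →* HH :=
  QuotientGroup.lift (Subgroup.normalClosure {g : FreeGroup X | ∃ h : FreeGroup X, g = h ^ 9})
    (FreeGroup.lift (img X e)) (by
    have h : Subgroup.normalClosure {g : FreeGroup X | ∃ h : FreeGroup X, g = h ^ 9} ≤
        (FreeGroup.lift (img X e)).ker := by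
      apply Subgroup.normalClosure_le_normal
      rintro g ⟨h, rfl⟩
      change FreeGroup.lift (img X e) (h ^ 9) = 1
      rw [map_pow, hh_pow]
    exact h)

theorem psi_of (t : X) : psi X e (QuotientGroup.mk (FreeGroup.of t) : Burnside 9 X) =
    img X e t := by
  change FreeGroup.lift (img X e) (FreeGroup.of t) = img X e t
  rw [FreeGroup.lift_apply_of]

theorem img_zero : img X e (e 0) = zed := by
  unfold img
  rw [if_pos rfl]

theorem img_one : img X e (e 1) = el hx := by
  unfold img
  rw [if_neg (fun h => absurd (e.injective h) (by decide)), if_pos rfl]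

theorem img_two : img X e (e 2) = el hy := by
  unfold img
  rw [if_neg (fun h => absurd (e.injective h) (by decide)),
    if_neg (fun h => absurd (e.injective h) (by decide)), if_pos rfl]

theorem push (i : Fin 4) (w : HH) (h : img X e (e i) = w) :
    assocMap (psi X e) (toAssocLie 9 X (gen X e i)) = cls 0 w (mem_zero w) := by
  unfold gen
  rw [toAssocLie_of, assocMap_cls]
  apply cls_congr _ _ rfl
  rw [psi_of, h]

theorem sub_rel12_not_mem : toAssocLie 9 X (sub X e (rel12 X e)) ≠ 0 := by
  intro hmem
  have h1 : sub X e (rel12 X e) = vee ⁅gen X e 1, gen X e 2⁆ (gen X e 2)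
      ⁅gen X e 1, ⁅gen X e 1, ⁅gen X e 2, gen X e 0⁆⁆⁆ := by
    unfold rel12
    rw [map_vee, LieHom.map_lie, LieHom.map_lie, LieHom.map_lie, sub_last,
      sub_other X e 0 (by decide), sub_other X e 1 (by decide), sub_other X e 2 (by decide)]
  have h2 := congrArg (assocMap (psi X e)) hmem
  rw [h1, map_vee, map_vee] at h2
  simp only [LieHom.map_lie] at h2
  rw [push X e 0 _ (img_zero X e), push X e 1 _ (img_one X e), push X e 2 _ (img_two X e),
    map_zero] at h2
  exact vee_ne_zero h2

end


end Pool.Agent.W_MP_21427b_al
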