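import Mathlib

/-!
The Heisenberg group over the integers modulo nine, its right translation action on functions
with values in the integers modulo three, and the weight filtration of these functions.
-/

namespace Pool.Agent.W_MP_21427b_al

/-- the Heisenberg group over the integers modulo nine -/
@[ext]
structure Hs where
  /-- first coordinate -/
  a : ZMod 9
  /-- second coordinate -/
  b : ZMod 9
  /-- central coordinate -/
  c : ZMod 9
deriving DecidableEq

instance hsGroup : Group Hs where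
  mul g h := ⟨g.a + h.a, g.b + h.b, g.c + h.c - g.b * h.a⟩
  one := ⟨0, 0, 0⟩
  inv g := ⟨-g.a, -g.b, -g.c - g.b * g.a⟩
  mul_assoc g h k := by
    apply Hs.ext
    · change g.a + h.a + k.a = g.a + (h.a + k.a); ring
    · change g.b + h.b + k.b = g.b + (h.b + k.b); ring
    · change g.c + h.c - g.b * h.a + k.c - (g.b + h.b) * k.a =
        g.c + (h.c + k.c - h.b * k.a) - g.b * (h.a + k.a)
      ring
  one_mul g := by
    apply Hs.ext
    · change 0 + g.a = g.a; ring
    · change 0 + g.b = g.b; ring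
    · change 0 + g.c - 0 * g.a = g.c; ring
  mul_one g := by
    apply Hs.ext
    · change g.a + 0 = g.a; ring
    · change g.b + 0 = g.b; ring
    · change g.c + 0 - g.b * 0 = g.c; ring
  inv_mul_cancel g := by
    apply Hs.ext
    · change -g.a + g.a = 0; ring
    · change -g.b + g.b = 0; ring
    · change -g.c - g.b * g.a + g.c - (-g.b) * g.a = 0; ring

theorem hs_mul (g h : Hs) : g * h = ⟨g.a + h.a, g.b + h.b, g.c + h.c - g.b * h.a⟩ := rfl

theorem hs_one : (1 : Hs) = ⟨0, 0, 0⟩ := rfl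

theorem hs_pow (k : Hs) (n : ℕ) :
    k ^ n = ⟨n * k.a, n * k.b, n * k.c - (n.choose 2 : ℕ) * (k.a * k.b)⟩ := by
  induction n with
  | zero => rw [pow_zero, hs_one]; simp
  | succ n ih =>
    rw [pow_succ, ih, hs_mul]
    apply Hs.ext
    · push_cast; ring
    · push_cast; ring
    · have h : (n + 1).choose 2 = n + n.choose 2 := by
        rw [Nat.choose_succ_succ' n 1, Nat.choose_one_right]
      rw [h]; push_cast; ring

theorem nine_zmod : (9 : ZMod 9) = 0 := by decide

theorem hs_pow_nine (k : Hs) : k ^ 9 = 1 := by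
  rw [hs_pow, hs_one]
  have h1 : ((9 : ℕ) : ZMod 9) = 0 := by decide
  have h2 : (((9 : ℕ).choose 2 : ℕ) : ZMod 9) = 0 := by decide
  rw [h1, h2]
  simp

/-- the generator `x` -/
def hx : Hs := ⟨1, 0, 0⟩
/-- the generator `y` -/
def hy : Hs := ⟨0, 1, 0⟩
/-- the central element `u` -/
def hu : Hs := ⟨0, 0, 1⟩

theorem hs_gen (k : Hs) :
    k = hx ^ k.a.val * hy ^ k.b.val * (hx * hy * hx ^ 8 * hy ^ 8) ^ k.c.val := by
  have h : hx * hy * hx ^ 8 * hy ^ 8 = hu := by decide
  rw [h, hs_pow, hs_pow, hs_pow, hs_mul, hs_mul]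
  apply Hs.ext <;> simp [hx, hy, hu]

section Functions

/-- right translation of functions -/
def act (k : Hs) : (Hs → ZMod 3) →ₗ[ZMod 3] (Hs → ZMod 3) where
  toFun f g := f (g * k)
  map_add' _ _ := rfl
  map_smul' _ _ := rfl

theorem act_apply (k : Hs) (f : Hs → ZMod 3) (g : Hs) : act k f g = f (g * k) := rfl

theorem act_one (f : Hs → ZMod 3) : act 1 f = f := by
  funext g; rw [act_apply, mul_one]

theorem act_mul (k l : Hs) (f : Hs → ZMod 3) : act (k * l) f = act k (act l f) := by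
  funext g; rw [act_apply, act_apply, act_apply, mul_assoc]

/-- binomial functions modulo three -/
def bn (i : ℕ) (t : ZMod 9) : ZMod 3 := ((t.val.choose i : ℕ) : ZMod 3)

/-- monomial functions -/
def mon (i j k : ℕ) (g : Hs) : ZMod 3 := bn i g.a * bn j g.b * bn k g.c

/-- functions of weight less than `m` -/
def PP (m : ℕ) : Submodule (ZMod 3) (Hs → ZMod 3) :=
  Submodule.span (ZMod 3) {f | ∃ i j k : ℕ, i ≤ 8 ∧ j ≤ 8 ∧ k ≤ 8 ∧ i + j + 2 * k < m ∧
    f = mon i j k}

theorem mon_mem {i j k m : ℕ} (hi : i ≤ 8) (hj : j ≤ 8) (hk : k ≤ 8) (h : i + j + 2 * k < m) :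
    mon i j k ∈ PP m :=
  Submodule.subset_span ⟨i, j, k, hi, hj, hk, h, rfl⟩

theorem PP_zero {f : Hs → ZMod 3} (h : f ∈ PP 0) : f = 0 := by
  have h2 : PP 0 = ⊥ := by
    unfold PP
    rw [Submodule.span_eq_bot]
    rintro f ⟨i, j, k, _, _, _, h, _⟩
    omega
  rw [h2] at h
  exact h

theorem PP_mono {m n : ℕ} (h : m ≤ n) : PP m ≤ PP n := by
  apply Submodule.span_mono
  rintro f ⟨i, j, k, h1, h2, h3, h4, h5⟩
  exact ⟨i, j, k, h1, h2, h3, lt_of_lt_of_le h4 h, h5⟩

/-- Newton coefficients of the function `b ↦ C(b,j) C(-b,s)` -/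
def cV (j s l : ℕ) : ZMod 3 :=
  ∑ t ∈ Finset.range (l + 1), (-1) ^ (l - t) * ((l.choose t : ℕ) : ZMod 3) *
    (bn j (t : ZMod 9) * bn s (-(t : ZMod 9)))

theorem cV_zero : ∀ j < 9, ∀ s < 9, ∀ l < 9, j + s < l → cV j s l = 0 := by
  decide +kernel

theorem cV_sum : ∀ j < 9, ∀ s < 9, ∀ b : ZMod 9,
    bn j b * bn s (-b) = ∑ l ∈ Finset.range 9, cV j s l * bn l b := by
  decide +kernel

theorem vander : ∀ k < 9, ∀ b c : ZMod 9,
    bn k (c - b) = ∑ s ∈ Finset.range (k + 1), bn s (-b) * bn (k - s) c := by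
  decide +kernel

theorem bn_succ : ∀ k < 9, ∀ b : ZMod 9,
    bn k (b + 1) = bn k b + (if k = 0 then 0 else bn (k - 1) b) := by
  decide +kernel

end Functions

end Pool.Agent.W_MP_21427b_al
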