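import Pool.Agent.W_MP_21427b_al.HeisFilt

/-!
A function on the Heisenberg group modulo nine all of whose sums over cosets of cyclic subgroups
vanish, of weight fifteen.
-/

namespace Pool.Agent.W_MP_21427b_al

/-- exponents and coefficients of the function -/
def lst : List (ℕ × ℕ × ℕ × ℕ) :=
  [(0, 6, 1, 1), (0, 7, 1, 1), (1, 6, 1, 1), (3, 6, 0, 2), (4, 3, 1, 2), (0, 6, 2, 2),
   (1, 7, 1, 1), (2, 6, 1, 1), (3, 3, 2, 1), (4, 4, 1, 2), (4, 6, 0, 1), (5, 3, 1, 1),
   (5, 5, 0, 2), (0, 7, 2, 1), (1, 6, 2, 1), (2, 7, 1, 1), (3, 4, 2, 2), (4, 5, 1, 2),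
   (4, 7, 0, 1), (5, 4, 1, 1), (6, 5, 0, 1), (2, 6, 2, 2), (3, 3, 3, 1), (3, 5, 2, 1),
   (1, 6, 3, 2), (2, 7, 2, 2), (3, 4, 3, 1), (4, 5, 2, 1), (1, 3, 5, 1), (0, 3, 6, 2),
   (1, 4, 5, 1), (2, 5, 4, 1)]

/-- evaluation on representatives -/
def evN (a b c : ℕ) : ℕ :=
  (lst.map fun q => q.2.2.2 * (a.choose q.1 * b.choose q.2.1 * c.choose q.2.2.1)).sum

/-- table of values modulo three, two binary digits for each value -/
def tabN : ℕ := 4797572597087872908907623128552835367756924472794990014012561991016972897894254151110464144694848308318655167342595441522857124091085019341138107797863351607108464142725554456496882675648943384580431892339301361429189821445393656642557396837413458415581803485483308803122909255615961835972104294154939388870427055084374559761686232809231776407332619304102372347997768700568185981307827362056452360022783148988646295856029511609051116470272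

/-- look up a value in the table -/
def tb (a b c : ℕ) : ℕ := (tabN / 4 ^ (81 * a + 9 * b + c)) % 4

/-- bounded universal quantifier -/
def allB : ℕ → (ℕ → Bool) → Bool
  | 0, _ => true
  | n + 1, p => p n && allB n p

theorem allB_spec {n : ℕ} {p : ℕ → Bool} (h : allB n p = true) : ∀ i < n, p i = true := by
  induction n with
  | zero => intro i hi; omega
  | succ n ih =>
    have h' : (p n && allB n p) = true := h
    rw [Bool.and_eq_true] at h'
    intro i hi
    rcases Nat.lt_succ_iff_lt_or_eq.mp hi with h1 | h1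
    · exact ih h'.2 i h1
    · rw [h1]; exact h'.1

/-- bounded sum -/
def sumB : ℕ → (ℕ → ℕ) → ℕ
  | 0, _ => 0
  | n + 1, f => sumB n f + f n

theorem sumB_eq (n : ℕ) (f : ℕ → ℕ) : sumB n f = ∑ t ∈ Finset.range n, f t := by
  induction n with
  | zero => rfl
  | succ n ih => rw [Finset.sum_range_succ, ← ih]; rfl

/-- sum over a coset of a cyclic subgroup -/
def SS (al be ga a b c : ℕ) : ℕ :=
  sumB 9 fun t => tb ((a + t * al) % 9) ((b + t * be) % 9)
    ((c + t * ga + 8 * (t.choose 2 * (al * be)) + 8 * (b * (t * al))) % 9)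

theorem ev_tb_check : allB 9 (fun a => allB 9 fun b => allB 9 fun c =>
    evN a b c % 3 == tb a b c) = true := by decide +kernel

theorem check_A : allB 9 (fun be => allB 9 fun ga => allB 9 fun b => allB 9 fun c =>
    SS 1 be ga 0 b c % 3 == 0) = true := by decide +kernel

theorem check_B : allB 3 (fun al => allB 9 fun ga => allB 9 fun a => allB 9 fun c =>
    SS (3 * al) 1 ga a 0 c % 3 == 0) = true := by decide +kernel

theorem check_C : allB 3 (fun al => allB 3 fun be => allB 9 fun a => allB 9 fun b =>
    allB 9 fun c => SS (3 * al) (3 * be) 1 a b c % 3 == 0) = true := by decide +kernel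

end Pool.Agent.W_MP_21427b_al
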