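import Pool.Agent.W_MP_21427b_al.Heis

/-!
The weight filtration of functions on the Heisenberg group is lowered by every difference
operator.
-/

namespace Pool.Agent.W_MP_21427b_al

theorem basic_mem {i j k s m : ℕ} (hi : i < 9) (hj : j < 9) (hk : k < 9) (hs : s < 9)
    (h : i + j + 2 * k + s < m) :
    (fun g : Hs => bn i g.a * (bn j g.b * bn s (-g.b)) * bn k g.c) ∈ PP m := by
  have e : (fun g : Hs => bn i g.a * (bn j g.b * bn s (-g.b)) * bn k g.c) =
      ∑ l ∈ Finset.range 9, cV j s l • mon i l k := by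
    funext g
    rw [cV_sum j hj s hs, Finset.sum_apply, Finset.mul_sum, Finset.sum_mul]
    refine Finset.sum_congr rfl fun l _ => ?_
    rw [Pi.smul_apply, smul_eq_mul, mon]
    ring
  rw [e]
  refine Submodule.sum_mem _ fun l hl => ?_
  rw [Finset.mem_range] at hl
  by_cases hc : j + s < l
  · rw [cV_zero j hj s hs l hl hc, zero_smul]
    exact Submodule.zero_mem _
  · exact Submodule.smul_mem _ _ (mon_mem (by omega) (by omega) (by omega) (by omega))

theorem diff_y {m : ℕ} {f : Hs → ZMod 3} (hf : f ∈ PP (m + 1)) : act hy f - f ∈ PP m := by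
  have h : PP (m + 1) ≤ (PP m).comap (act hy - LinearMap.id) := by
    unfold PP
    rw [Submodule.span_le]
    rintro f ⟨i, j, k, hi, hj, hk, hw, rfl⟩
    change act hy (mon i j k) - mon i j k ∈ PP m
    have e : act hy (mon i j k) - mon i j k =
        (if j = 0 then 0 else mon i (j - 1) k) := by
      funext g
      rw [Pi.sub_apply, act_apply, hs_mul]
      have e1 : g.c + hy.c - g.b * hy.a = g.c := by simp [hy]
      have e2 : g.a + hy.a = g.a := by simp [hy]
      have e3 : g.b + hy.b = g.b + 1 := by simp [hy]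
      rw [e1, e2, e3]
      simp only [mon]
      rw [bn_succ j (by omega)]
      split_ifs
      · simp
      · simp only [mon]; ring
    rw [e]
    split_ifs with h0
    · exact Submodule.zero_mem _
    · exact mon_mem (by omega) (by omega) (by omega) (by omega)
  exact h hf

theorem diff_x {m : ℕ} {f : Hs → ZMod 3} (hf : f ∈ PP (m + 1)) : act hx f - f ∈ PP m := by
  have h : PP (m + 1) ≤ (PP m).comap (act hx - LinearMap.id) := by
    unfold PP
    rw [Submodule.span_le]
    rintro f ⟨i, j, k, hi, hj, hk, hw, rfl⟩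
    change act hx (mon i j k) - mon i j k ∈ PP m
    have e : act hx (mon i j k) - mon i j k =
        (if i = 0 then 0 else ∑ s ∈ Finset.range (k + 1), fun g : Hs =>
          bn (i - 1) g.a * (bn j g.b * bn s (-g.b)) * bn (k - s) g.c) +
        ∑ s ∈ Finset.range k, fun g : Hs =>
          bn i g.a * (bn j g.b * bn (s + 1) (-g.b)) * bn (k - (s + 1)) g.c := by
      funext g
      rw [Pi.sub_apply, act_apply, hs_mul]
      have e1 : g.c + hx.c - g.b * hx.a = g.c - g.b := by simp [hx]
      have e2 : g.a + hx.a = g.a + 1 := by simp [hx]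
      have e3 : g.b + hx.b = g.b := by simp [hx]
      rw [e1, e2, e3]
      simp only [mon]
      have b0 : bn 0 (-g.b) = 1 := by simp [bn]
      have e4 : bn i g.a * bn j g.b * bn k (g.c - g.b) - bn i g.a * bn j g.b * bn k g.c =
          ∑ s ∈ Finset.range k,
            bn i g.a * (bn j g.b * bn (s + 1) (-g.b)) * bn (k - (s + 1)) g.c := by
        rw [vander k (by omega), Finset.sum_range_succ', b0, Nat.sub_zero, one_mul, mul_add,
          add_sub_cancel_right, Finset.mul_sum]
        refine Finset.sum_congr rfl fun s _ => ?_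
        ring
      rw [bn_succ i (by omega), Pi.add_apply, Finset.sum_apply, ← e4]
      split_ifs
      · simp
      · rw [Finset.sum_apply]
        have e5 : ∑ s ∈ Finset.range (k + 1),
            bn (i - 1) g.a * (bn j g.b * bn s (-g.b)) * bn (k - s) g.c =
            bn (i - 1) g.a * bn j g.b * bn k (g.c - g.b) := by
          rw [vander k (by omega), Finset.mul_sum]
          refine Finset.sum_congr rfl fun s _ => ?_
          ring
        rw [e5]
        ring
    rw [e]
    refine Submodule.add_mem _ ?_ ?_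
    · split_ifs with h0
      · exact Submodule.zero_mem _
      · refine Submodule.sum_mem _ fun s hs => ?_
        rw [Finset.mem_range] at hs
        exact basic_mem (by omega) (by omega) (by omega) (by omega) (by omega)
    · refine Submodule.sum_mem _ fun s hs => ?_
      rw [Finset.mem_range] at hs
      exact basic_mem (by omega) (by omega) (by omega) (by omega) (by omega)
  exact h hf

/-- `k - 1` lowers the weight by at least `r` -/
def Low (r : ℕ) (k : Hs) : Prop := ∀ m, ∀ f ∈ PP m, act k f - f ∈ PP (m - r)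

theorem Low.act_mem {r : ℕ} {k : Hs} (h : Low r k) {m : ℕ} {f : Hs → ZMod 3} (hf : f ∈ PP m) :
    act k f ∈ PP m := by
  have h1 := PP_mono (Nat.sub_le m r) (h m f hf)
  have h2 := Submodule.add_mem _ h1 hf
  rwa [sub_add_cancel] at h2

theorem Low.mul {r : ℕ} {k l : Hs} (hk : Low r k) (hl : Low r l) : Low r (k * l) := by
  intro m f hf
  rw [act_mul]
  have e : act k (act l f) - f = act k (act l f - f) + (act k f - f) := by
    rw [map_sub]; abel
  rw [e]
  exact Submodule.add_mem _ (hk.act_mem (hl m f hf)) (hk m f hf)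

theorem Low.one {r : ℕ} : Low r 1 := by
  intro m f _
  rw [act_one, sub_self]
  exact Submodule.zero_mem _

theorem Low.pow {r : ℕ} {k : Hs} (hk : Low r k) (n : ℕ) : Low r (k ^ n) := by
  induction n with
  | zero => rw [pow_zero]; exact Low.one
  | succ n ih => rw [pow_succ]; exact ih.mul hk

theorem low_one (k : Hs) : Low 1 k := by
  have h1 : Low 1 hx := by
    intro m f hf
    cases m with
    | zero =>
      rw [PP_zero hf, map_zero, sub_self]
      exact Submodule.zero_mem _
    | succ m => exact diff_x hf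
  have h2 : Low 1 hy := by
    intro m f hf
    cases m with
    | zero =>
      rw [PP_zero hf, map_zero, sub_self]
      exact Submodule.zero_mem _
    | succ m => exact diff_y hf
  rw [hs_gen k]
  exact ((h1.pow _).mul (h2.pow _)).mul ((((h1.mul h2).mul (h1.pow 8)).mul (h2.pow 8)).pow _)

theorem actm (k : Hs) {m : ℕ} {f : Hs → ZMod 3} (hf : f ∈ PP m) : act k f ∈ PP m :=
  (low_one k).act_mem hf

theorem Low.inv {r : ℕ} {k : Hs} (hk : Low r k) : Low r k⁻¹ := by
  intro m f hf
  have e : act k⁻¹ f - f = - act k⁻¹ (act k f - f) := by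
    rw [map_sub, ← act_mul, inv_mul_cancel, act_one]; abel
  rw [e]
  exact Submodule.neg_mem _ (actm _ (hk m f hf))

theorem Low.comm {r : ℕ} {k : Hs} (hk : Low r k) (l : Hs) : Low (r + 1) (k * l * (l * k)⁻¹) := by
  intro m f hf
  set h := act (l * k)⁻¹ f with hh
  have hm : h ∈ PP m := actm _ hf
  have ef : f = act l (act k h) := by
    rw [hh, ← act_mul, ← act_mul, mul_inv_cancel, act_one]
  have e0 : act (k * l * (l * k)⁻¹) f = act k (act l h) := by
    rw [act_mul, ← hh, act_mul]
  have e : act (k * l * (l * k)⁻¹) f - f =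
      (act k (act l h - h) - (act l h - h)) - (act l (act k h - h) - (act k h - h)) := by
    rw [e0, map_sub, map_sub]
    conv_lhs => rw [ef]
    abel
  rw [e]
  have h1 := hk _ _ (low_one l m h hm)
  have h2 := low_one l _ _ (hk m h hm)
  have e1 : m - 1 - r = m - (r + 1) := by omega
  have e2 : m - r - 1 = m - (r + 1) := by omega
  rw [e1] at h1
  rw [e2] at h2
  exact Submodule.sub_mem _ h1 h2

/-- the sums over all cosets of cyclic subgroups vanish -/
def LS (f : Hs → ZMod 3) : Prop := ∀ g k : Hs, ∑ t ∈ Finset.range 9, f (g * k ^ t) = 0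

theorem LS.add {f f' : Hs → ZMod 3} (h : LS f) (h' : LS f') : LS (f + f') := by
  intro g k
  have e : ∑ t ∈ Finset.range 9, (f + f') (g * k ^ t) =
      ∑ t ∈ Finset.range 9, f (g * k ^ t) + ∑ t ∈ Finset.range 9, f' (g * k ^ t) := by
    rw [← Finset.sum_add_distrib]; rfl
  rw [e, h g k, h' g k, add_zero]

theorem LS.neg {f : Hs → ZMod 3} (h : LS f) : LS (-f) := by
  intro g k
  have e : ∑ t ∈ Finset.range 9, (-f) (g * k ^ t) =
      - ∑ t ∈ Finset.range 9, f (g * k ^ t) := by
    rw [← Finset.sum_neg_distrib]; rfl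
  rw [e, h g k, neg_zero]

theorem LS.zero : LS 0 := by
  intro g k
  exact Finset.sum_eq_zero fun _ _ => rfl

theorem LS.act {f : Hs → ZMod 3} (h : LS f) (l : Hs) : LS (act l f) := by
  intro g k
  rw [← h (g * l) (l⁻¹ * k * l)]
  refine Finset.sum_congr rfl fun t _ => ?_
  rw [act_apply]
  congr 1
  have e : (l⁻¹ * k * l) ^ t = l⁻¹ * k ^ t * l := by
    have := conj_pow (i := t) (a := l⁻¹) (b := k)
    rw [inv_inv] at this
    exact this
  rw [e]
  group

/-- pairs of a function and an element of the Heisenberg group -/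
@[ext]
structure Wr where
  /-- the function -/
  f : Hs → ZMod 3
  /-- the element of the Heisenberg group -/
  k : Hs

instance wrGroup : Group Wr where
  mul v w := ⟨v.f + act v.k w.f, v.k * w.k⟩
  one := ⟨0, 1⟩
  inv v := ⟨- act v.k⁻¹ v.f, v.k⁻¹⟩
  mul_assoc u v w := by
    apply Wr.ext
    · change u.f + act u.k v.f + act (u.k * v.k) w.f = u.f + act u.k (v.f + act v.k w.f)
      rw [act_mul, map_add, add_assoc]
    · exact mul_assoc _ _ _
  one_mul v := by
    apply Wr.ext
    · change 0 + act 1 v.f = v.f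
      rw [act_one, zero_add]
    · exact one_mul _
  mul_one v := by
    apply Wr.ext
    · change v.f + act v.k 0 = v.f
      rw [map_zero, add_zero]
    · exact mul_one _
  inv_mul_cancel v := by
    apply Wr.ext
    · change - act v.k⁻¹ v.f + act v.k⁻¹ v.f = 0
      rw [neg_add_cancel]
    · exact inv_mul_cancel _

theorem wr_mul (v w : Wr) : v * w = ⟨v.f + act v.k w.f, v.k * w.k⟩ := rfl

theorem wr_inv (v : Wr) : v⁻¹ = ⟨- act v.k⁻¹ v.f, v.k⁻¹⟩ := rfl

theorem wr_one : (1 : Wr) = ⟨0, 1⟩ := rfl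

/-- the subgroup of pairs whose function has vanishing coset sums and weight at most fifteen -/
def HH : Subgroup Wr where
  carrier := {w | LS w.f ∧ w.f ∈ PP 16}
  mul_mem' := by
    rintro v w ⟨h1, h2⟩ ⟨h3, h4⟩
    exact ⟨h1.add (h3.act _), Submodule.add_mem _ h2 (actm _ h4)⟩
  one_mem' := ⟨LS.zero, Submodule.zero_mem _⟩
  inv_mem' := by
    rintro v ⟨h1, h2⟩
    exact ⟨(h1.act _).neg, Submodule.neg_mem _ (actm _ h2)⟩

theorem wr_pow (w : Wr) (n : ℕ) :
    w ^ n = ⟨∑ t ∈ Finset.range n, act (w.k ^ t) w.f, w.k ^ n⟩ := by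
  induction n with
  | zero => rfl
  | succ n ih =>
    rw [pow_succ, ih, wr_mul, Finset.sum_range_succ, pow_succ]

theorem hh_pow (w : HH) : w ^ 9 = 1 := by
  apply Subtype.ext
  rw [Subgroup.coe_pow, wr_pow, hs_pow_nine, Subgroup.coe_one, wr_one]
  apply Wr.ext
  · funext g
    have h := w.2.1 g (w : Wr).k
    change (∑ t ∈ Finset.range 9, act ((w : Wr).k ^ t) (w : Wr).f) g = 0
    rw [Finset.sum_apply]
    exact h
  · rfl

/-- the filtration subgroups -/
def TT (n : ℕ) : Subgroup Wr where
  carrier := {w | w.f ∈ PP (16 - n) ∧ Low (n + 1) w.k}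
  mul_mem' := by
    rintro v w ⟨h1, h2⟩ ⟨h3, h4⟩
    exact ⟨Submodule.add_mem _ h1 (actm _ h3), h2.mul h4⟩
  one_mem' := ⟨Submodule.zero_mem _, Low.one⟩
  inv_mem' := by
    rintro v ⟨h1, h2⟩
    exact ⟨Submodule.neg_mem _ (actm _ h1), h2.inv⟩

theorem HH_le_TT : HH ≤ TT 0 := by
  rintro w ⟨_, h2⟩
  exact ⟨h2, low_one _⟩

theorem TT_comm (n : ℕ) : ⁅TT n, TT 0⁆ ≤ TT (n + 1) := by
  rw [Subgroup.commutator_le]
  rintro v ⟨hv1, hv2⟩ w ⟨hw1, _⟩
  change v * w * v⁻¹ * w⁻¹ ∈ _
  have e : v * w * v⁻¹ * w⁻¹ = (v * w) * (w * v)⁻¹ := by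
    rw [mul_inv_rev]; group
  rw [e, wr_inv, wr_mul, wr_mul, wr_mul]
  set c := v.k * w.k * (w.k * v.k)⁻¹ with hc
  have hcl : Low (n + 1 + 1) c := hv2.comm w.k
  refine ⟨?_, hcl⟩
  change v.f + act v.k w.f + act (v.k * w.k) (- act (w.k * v.k)⁻¹ (w.f + act w.k v.f)) ∈ _
  rw [map_neg, ← act_mul, ← hc]
  have e2 : v.f + act v.k w.f + - act c (w.f + act w.k v.f) =
      (act v.k w.f - w.f) - (act w.k v.f - v.f) -
        (act c (w.f + act w.k v.f) - (w.f + act w.k v.f)) := by abel
  rw [e2]
  have m1 : act v.k w.f - w.f ∈ PP (16 - (n + 1)) := by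
    have := hv2 _ _ hw1
    exact PP_mono (by omega) this
  have m2 : act w.k v.f - v.f ∈ PP (16 - (n + 1)) := by
    have := low_one w.k _ _ hv1
    exact PP_mono (by omega) this
  have m3 : w.f + act w.k v.f ∈ PP 16 :=
    Submodule.add_mem _ (PP_mono (by omega) hw1) (PP_mono (by omega) (actm _ hv1))
  have m4 : act c (w.f + act w.k v.f) - (w.f + act w.k v.f) ∈ PP (16 - (n + 1)) :=
    PP_mono (by omega) (hcl _ _ m3)
  exact Submodule.sub_mem _ (Submodule.sub_mem _ m1 m2) m4

end Pool.Agent.W_MP_21427b_al
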