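import Pool.Agent.W_MP_21427b_al.HeisF0

/-!
The function `f0`: weight, vanishing of the coset sums, and a nonvanishing difference of order
sixteen.
-/

namespace Pool.Agent.W_MP_21427b_al

/-- the function on the Heisenberg group -/
def f0 (g : Hs) : ZMod 3 := ((evN g.a.val g.b.val g.c.val : ℕ) : ZMod 3)

theorem f0_mem : f0 ∈ PP 16 := by
  have e : f0 = (lst.map fun q => ((q.2.2.2 : ℕ) : ZMod 3) • mon q.1 q.2.1 q.2.2.1).sum := by
    funext g
    unfold f0 evN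
    generalize lst = l
    induction l with
    | nil => rfl
    | cons q l ih =>
      rw [List.map_cons, List.sum_cons, List.map_cons, List.sum_cons, Nat.cast_add, ih,
        Pi.add_apply, Pi.smul_apply, smul_eq_mul]
      congr 1
      unfold mon bn
      push_cast
      rfl
  rw [e]
  refine list_sum_mem ?_
  intro f hf
  obtain ⟨q, hq, rfl⟩ := List.mem_map.mp hf
  have h : ∀ q ∈ lst, q.1 ≤ 8 ∧ q.2.1 ≤ 8 ∧ q.2.2.1 ≤ 8 ∧ q.1 + q.2.1 + 2 * q.2.2.1 < 16 := by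
    decide
  obtain ⟨h1, h2, h3, h4⟩ := h q hq
  exact Submodule.smul_mem _ _ (mon_mem h1 h2 h3 h4)

theorem evN_mod {a b c : ℕ} (ha : a < 9) (hb : b < 9) (hc : c < 9) : evN a b c % 3 = tb a b c := by
  have h := allB_spec (allB_spec (allB_spec ev_tb_check a ha) b hb) c hc
  exact beq_iff_eq.mp h

theorem f0_cast (m n p : ℕ) :
    f0 ⟨(m : ZMod 9), (n : ZMod 9), (p : ZMod 9)⟩ =
      ((tb (m % 9) (n % 9) (p % 9) : ℕ) : ZMod 3) := by
  unfold f0
  rw [ZMod.val_natCast, ZMod.val_natCast, ZMod.val_natCast,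
    ← evN_mod (Nat.mod_lt _ (by norm_num)) (Nat.mod_lt _ (by norm_num))
      (Nat.mod_lt _ (by norm_num)), ZMod.natCast_mod]

/-- sum over a coset of a cyclic subgroup -/
def LL (g k : Hs) : ZMod 3 := ∑ t ∈ Finset.range 9, f0 (g * k ^ t)

theorem LL_cast (al be ga a b c : ℕ) :
    LL ⟨(a : ZMod 9), (b : ZMod 9), (c : ZMod 9)⟩ ⟨(al : ZMod 9), (be : ZMod 9), (ga : ZMod 9)⟩ =
      ((SS al be ga a b c : ℕ) : ZMod 3) := by
  unfold LL SS
  rw [sumB_eq, Nat.cast_sum]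
  refine Finset.sum_congr rfl fun t _ => ?_
  rw [← f0_cast]
  congr 1
  rw [hs_pow, hs_mul]
  have h8 : (8 : ZMod 9) = -1 := by decide
  apply Hs.ext
  · push_cast; ring
  · push_cast; ring
  · push_cast; rw [h8]; ring

theorem LL_zero_of {al be ga a b c : ℕ} (h : (SS al be ga a b c % 3 == 0) = true) :
    LL ⟨(a : ZMod 9), (b : ZMod 9), (c : ZMod 9)⟩ ⟨(al : ZMod 9), (be : ZMod 9), (ga : ZMod 9)⟩ =
      0 := by
  rw [LL_cast, ← ZMod.natCast_mod, beq_iff_eq.mp h, Nat.cast_zero]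

theorem LL_shift_one (g k : Hs) : LL (g * k) k = LL g k := by
  unfold LL
  have h1 : ∀ t, g * k * k ^ t = g * k ^ (t + 1) := by
    intro t; rw [mul_assoc, ← pow_succ']
  have h2 : ∑ t ∈ Finset.range 9, f0 (g * k * k ^ t) =
      ∑ t ∈ Finset.range 9, f0 (g * k ^ (t + 1)) :=
    Finset.sum_congr rfl fun t _ => by rw [h1]
  have h3 := Finset.sum_range_succ (fun t => f0 (g * k ^ t)) 9
  have h4 := Finset.sum_range_succ' (fun t => f0 (g * k ^ t)) 9
  rw [h3, hs_pow_nine, pow_zero] at h4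
  rw [h2]
  exact (add_right_cancel h4).symm

theorem LL_shift (g k : Hs) (s : ℕ) : LL (g * k ^ s) k = LL g k := by
  induction s with
  | zero => rw [pow_zero, mul_one]
  | succ s ih => rw [pow_succ, ← mul_assoc, LL_shift_one, ih]

theorem LL_unit (g k : Hs) (r : ℕ) (hr : r ∈ ([1, 2, 4, 5, 7, 8] : List ℕ)) :
    LL g (k ^ r) = LL g k := by
  have e : ∀ t, f0 (g * (k ^ r) ^ t) = f0 (g * k ^ (r * t % 9)) := by
    intro t
    rw [← pow_mul]
    congr 2
    conv_lhs => rw [← Nat.div_add_mod (r * t) 9, pow_add, pow_mul, hs_pow_nine, one_pow, one_mul]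
  unfold LL
  rw [Finset.sum_congr rfl fun t _ => e t]
  simp only [List.mem_cons, List.mem_nil_iff, or_false] at hr
  rcases hr with h | h | h | h | h | h <;> subst h <;>
    simp only [Finset.sum_range_succ, Finset.sum_range_zero] <;> norm_num <;> ring

theorem line_cases : ∀ al be ga : ZMod 9, (⟨al, be, ga⟩ : Hs) ^ 3 = 1 ∨
    ∃ r ∈ ([1, 2, 4, 5, 7, 8] : List ℕ), ((⟨al, be, ga⟩ : Hs) ^ r).a = 1 ∨
      ((∃ i : Fin 3, ((⟨al, be, ga⟩ : Hs) ^ r).a = ((3 * i.val : ℕ) : ZMod 9)) ∧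
        ((⟨al, be, ga⟩ : Hs) ^ r).b = 1) ∨
      ((∃ i : Fin 3, ((⟨al, be, ga⟩ : Hs) ^ r).a = ((3 * i.val : ℕ) : ZMod 9)) ∧
        (∃ i : Fin 3, ((⟨al, be, ga⟩ : Hs) ^ r).b = ((3 * i.val : ℕ) : ZMod 9)) ∧
        ((⟨al, be, ga⟩ : Hs) ^ r).c = 1) := by
  decide +kernel

theorem cast_val (t : ZMod 9) : ((t.val : ℕ) : ZMod 9) = t := ZMod.natCast_zmod_val t

theorem val_lt (t : ZMod 9) : t.val < 9 := ZMod.val_lt t

theorem LL_A (g k : Hs) (hg : g.a = 0) (hk : k.a = 1) : LL g k = 0 := by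
  have h := allB_spec (allB_spec (allB_spec (allB_spec check_A k.b.val (val_lt _)) k.c.val
    (val_lt _)) g.b.val (val_lt _)) g.c.val (val_lt _)
  have h2 := LL_zero_of h
  rw [cast_val, cast_val, cast_val, cast_val, Nat.cast_zero, Nat.cast_one] at h2
  have e1 : g = ⟨0, g.b, g.c⟩ := Hs.ext hg rfl rfl
  have e2 : k = ⟨1, k.b, k.c⟩ := Hs.ext hk rfl rfl
  rw [e1, e2]
  exact h2

theorem LL_B (g k : Hs) (i : Fin 3) (hg : g.b = 0) (hi : k.a = ((3 * i.val : ℕ) : ZMod 9))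
    (hk : k.b = 1) : LL g k = 0 := by
  have h := allB_spec (allB_spec (allB_spec (allB_spec check_B i.val i.2) k.c.val
    (val_lt _)) g.a.val (val_lt _)) g.c.val (val_lt _)
  have h2 := LL_zero_of h
  rw [cast_val, cast_val, cast_val, Nat.cast_zero, Nat.cast_one] at h2
  have e1 : g = ⟨g.a, 0, g.c⟩ := Hs.ext rfl hg rfl
  have e2 : k = ⟨((3 * i.val : ℕ) : ZMod 9), 1, k.c⟩ := Hs.ext hi hk rfl
  rw [e1, e2]
  exact h2

theorem LL_C (g k : Hs) (i j : Fin 3) (hi : k.a = ((3 * i.val : ℕ) : ZMod 9))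
    (hj : k.b = ((3 * j.val : ℕ) : ZMod 9)) (hk : k.c = 1) : LL g k = 0 := by
  have h := allB_spec (allB_spec (allB_spec (allB_spec (allB_spec check_C i.val i.2) j.val j.2)
    g.a.val (val_lt _)) g.b.val (val_lt _)) g.c.val (val_lt _)
  have h2 := LL_zero_of h
  rw [cast_val, cast_val, cast_val, Nat.cast_one] at h2
  have e2 : k = ⟨((3 * i.val : ℕ) : ZMod 9), ((3 * j.val : ℕ) : ZMod 9), 1⟩ := Hs.ext hi hj hk
  rw [e2]
  exact h2

theorem LL_D (g k : Hs) (hk : k ^ 3 = 1) : LL g k = 0 := by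
  have e : ∀ t, f0 (g * k ^ t) = f0 (g * k ^ (t % 3)) := by
    intro t
    congr 2
    conv_lhs => rw [← Nat.div_add_mod t 3, pow_add, pow_mul, hk, one_pow, one_mul]
  have h3 : (3 : ZMod 3) = 0 := by decide
  unfold LL
  rw [Finset.sum_congr rfl fun t _ => e t]
  simp only [Finset.sum_range_succ, Finset.sum_range_zero]
  norm_num
  have h : ∀ p q r : ZMod 3, p + q + r + p + q + r + p + q + r = 3 * (p + q + r) := by
    intro p q r; ring
  rw [h, h3, zero_mul]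

theorem f0_LS : LS f0 := by
  intro g k
  change LL g k = 0
  rcases line_cases k.a k.b k.c with h | ⟨r, hr, h⟩
  · exact LL_D g k h
  · rw [← LL_unit g k r hr]
    rcases h with h | ⟨⟨i, hi⟩, h⟩ | ⟨⟨i, hi⟩, ⟨j, hj⟩, h⟩
    · set k' := k ^ r with hk'
      rw [← LL_shift g k' (-g.a).val]
      apply LL_A _ _ _ h
      rw [hs_pow, hs_mul]
      change g.a + _ * k'.a = 0
      have h' : k'.a = 1 := h
      rw [h', cast_val]
      ring
    · set k' := k ^ r with hk'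
      rw [← LL_shift g k' (-g.b).val]
      apply LL_B _ _ i _ hi h
      rw [hs_pow, hs_mul]
      change g.b + _ * k'.b = 0
      have h' : k'.b = 1 := h
      rw [h', cast_val]
      ring
    · exact LL_C g _ i j hi hj h

/-- the difference operator -/
def Dk (k : Hs) (f : Hs → ZMod 3) (g : Hs) : ZMod 3 := f (g * k) - f g

theorem Dk_eq (k : Hs) (f : Hs → ZMod 3) : Dk k f = act k f - f := rfl

/-- tabulated version of the function -/
def f1 (g : Hs) : ZMod 3 := ((tb g.a.val g.b.val g.c.val : ℕ) : ZMod 3)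

theorem f0_eq_f1 : f0 = f1 := by
  funext g
  unfold f0 f1
  rw [← evN_mod (val_lt _) (val_lt _) (val_lt _), ZMod.natCast_mod]

theorem value_f1 : Dk hu (Dk hu (Dk hu (Dk hu (Dk hy (Dk hy (Dk hy (Dk hy
    (Dk hx (Dk hx (Dk hy f1)))))))))) 1 = 2 := by
  decide +kernel

theorem value_f0 : Dk hu (Dk hu (Dk hu (Dk hu (Dk hy (Dk hy (Dk hy (Dk hy
    (Dk hx (Dk hx (Dk hy f0)))))))))) 1 = 2 := by
  rw [f0_eq_f1]; exact value_f1

end Pool.Agent.W_MP_21427b_al
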