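import Mathlib

/-!
The noncommutative ring identity behind the relation of degree eight.
-/

namespace Pool.Agent.W_MP_21427b_al

universe u

/-- a filtration of a ring by additive subgroups whose ninth term vanishes -/
structure Filt (R : Type u) [Ring R] where
  /-- the terms -/
  F : ℕ → AddSubgroup R
  mul_mem : ∀ {i j : ℕ} {a b : R}, a ∈ F i → b ∈ F j → a * b ∈ F (i + j)
  anti : ∀ i, F (i + 1) ≤ F i
  one_mem : (1 : R) ∈ F 0
  nine : ∀ a ∈ F 9, a = 0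

variable {R : Type u} [Ring R] (Φ : Filt R)

namespace Filt

theorem le {i j : ℕ} (h : i ≤ j) : Φ.F j ≤ Φ.F i := by
  induction h with
  | refl => exact le_refl _
  | step _ ih => exact (Φ.anti _).trans ih

theorem vanish {n : ℕ} (h : 9 ≤ n) {a : R} (ha : a ∈ Φ.F n) : a = 0 :=
  Φ.nine a (Φ.le h ha)

theorem pow_mem {a : R} (ha : a ∈ Φ.F 1) (n : ℕ) : a ^ n ∈ Φ.F n := by
  induction n with
  | zero => rw [pow_zero]; exact Φ.one_mem
  | succ n ih => rw [pow_succ]; exact Φ.mul_mem ih ha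

theorem perturb {s p : R} (hs : s ∈ Φ.F 1) (hp : p ∈ Φ.F 2) (n : ℕ) :
    (s + p) ^ n - s ^ n ∈ Φ.F (n + 1) := by
  induction n with
  | zero => rw [pow_zero, pow_zero, sub_self]; exact (Φ.F _).zero_mem
  | succ n ih =>
    have hsp : s + p ∈ Φ.F 1 := (Φ.F 1).add_mem hs (Φ.le (by norm_num) hp)
    have h : (s + p) ^ (n + 1) - s ^ (n + 1) = ((s + p) ^ n - s ^ n) * (s + p) + s ^ n * p := by
      rw [pow_succ, pow_succ]; noncomm_ring
    rw [h]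
    have h2 : s ^ n * p ∈ Φ.F (n + 2) := Φ.mul_mem (Φ.pow_mem hs n) hp
    have h1 : ((s + p) ^ n - s ^ n) * (s + p) ∈ Φ.F (n + 1 + 1) := Φ.mul_mem ih hsp
    exact (Φ.F (n + 1 + 1)).add_mem h1 h2

theorem perturb8 {s p : R} (hs : s ∈ Φ.F 1) (hp : p ∈ Φ.F 2) : (s + p) ^ 8 = s ^ 8 :=
  sub_eq_zero.mp (Φ.nine _ (Φ.perturb hs hp 8))

end Filt

theorem single (h9 : (9 : R) = 0) {G : R} (hG : G ∈ Φ.F 1)
    (hN : ∑ i ∈ Finset.range 9, (1 + G) ^ i = 0) : 3 * G ^ 2 = - G ^ 8 := by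
  have e0 : ∑ i ∈ Finset.range 9, (1 + G) ^ i =
      9 * (1 + 4 * G + 9 * G ^ 2 + 14 * G ^ 3 + 14 * G ^ 4 + 9 * G ^ 5 + 4 * G ^ 6 + G ^ 7)
        + (3 * G ^ 2 + 3 * G ^ 5 + G ^ 8) := by
    simp only [Finset.sum_range_succ, Finset.sum_range_zero]
    noncomm_ring
  rw [e0, h9, zero_mul, zero_add] at hN
  have e2 : 3 * G ^ 8 = 0 := by
    have h : 3 * (3 * G ^ 2 + 3 * G ^ 5 + G ^ 8) = 9 * (G ^ 2 + G ^ 5) + 3 * G ^ 8 := by
      noncomm_ring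
    rw [hN, mul_zero, h9, zero_mul, zero_add] at h
    exact h.symm
  have e3 : 3 * G ^ 5 = 0 := by
    have h : (3 * G ^ 2 + 3 * G ^ 5 + G ^ 8) * G ^ 3 = 3 * G ^ 5 + 3 * G ^ 8 + G ^ 11 := by
      noncomm_ring
    have h11 : G ^ 11 = 0 := Φ.vanish (by norm_num) (Φ.pow_mem hG 11)
    rw [hN, zero_mul, e2, h11, add_zero, add_zero] at h
    exact h.symm
  rw [e3, add_zero] at hN
  exact eq_neg_of_add_eq_zero_left hN

theorem pair {X Y : R} (hX : X ∈ Φ.F 1) (hY : Y ∈ Φ.F 1)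
    (eX : 3 * X ^ 2 = - X ^ 8) (eY : 3 * Y ^ 2 = - Y ^ 8)
    (eZ : 3 * (X + Y + X * Y) ^ 2 = - (X + Y + X * Y) ^ 8) :
    3 * (X * Y + Y * X) = - ((X + Y) ^ 8 - X ^ 8 - Y ^ 8) := by
  have hXY : X + Y ∈ Φ.F 1 := (Φ.F 1).add_mem hX hY
  have hp : X * Y ∈ Φ.F 2 := Φ.mul_mem hX hY
  rw [Φ.perturb8 hXY hp] at eZ
  have z1 : ∀ t ∈ Φ.F 1, 3 * X ^ 2 * t = 0 := by
    intro t ht
    rw [eX, neg_mul, Φ.nine _ (Φ.mul_mem (Φ.pow_mem hX 8) ht), neg_zero]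
  have z2 : ∀ t ∈ Φ.F 1, 3 * Y ^ 2 * t = 0 := by
    intro t ht
    rw [eY, neg_mul, Φ.nine _ (Φ.mul_mem (Φ.pow_mem hY 8) ht), neg_zero]
  have z3 : ∀ t ∈ Φ.F 1, t * (3 * X ^ 2) = 0 := by
    intro t ht
    rw [eX, mul_neg, Φ.nine _ (Φ.mul_mem ht (Φ.pow_mem hX 8)), neg_zero]
  have z4 : ∀ t ∈ Φ.F 1, t * (3 * Y ^ 2) = 0 := by
    intro t ht
    rw [eY, mul_neg, Φ.nine _ (Φ.mul_mem ht (Φ.pow_mem hY 8)), neg_zero]
  have hp1 : X * Y ∈ Φ.F 1 := Φ.le (by norm_num) hp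
  -- the expanded equation
  have E : 3 * (X * Y + Y * X + X * Y * X + Y * X * Y + X * Y * X * Y) =
      - ((X + Y) ^ 8 - X ^ 8 - Y ^ 8) := by
    have h : 3 * (X + Y + X * Y) ^ 2 =
        3 * (X * Y + Y * X + X * Y * X + Y * X * Y + X * Y * X * Y) + 3 * X ^ 2 + 3 * Y ^ 2
          + 3 * X ^ 2 * Y + X * (3 * Y ^ 2) := by noncomm_ring
    rw [z1 Y hY, z4 X hX, add_zero, add_zero, eX, eY] at h
    rw [h] at eZ
    have h2 : 3 * (X * Y + Y * X + X * Y * X + Y * X * Y + X * Y * X * Y) =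
        (3 * (X * Y + Y * X + X * Y * X + Y * X * Y + X * Y * X * Y) + -X ^ 8 + -Y ^ 8)
          + X ^ 8 + Y ^ 8 := by abel
    rw [h2, eZ]; abel
  have h8 : (X + Y) ^ 8 - X ^ 8 - Y ^ 8 ∈ Φ.F 8 :=
    (Φ.F 8).sub_mem ((Φ.F 8).sub_mem (Φ.pow_mem hXY 8) (Φ.pow_mem hX 8)) (Φ.pow_mem hY 8)
  -- e = 3 Y X Y vanishes
  have he : 3 * (Y * X * Y) = 0 := by
    have h1 : Y * (3 * (X * Y + Y * X + X * Y * X + Y * X * Y + X * Y * X * Y)) = 0 := by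
      rw [E, mul_neg, Φ.nine _ (Φ.mul_mem hY h8), neg_zero]
    have h2 : Y * (3 * (X * Y + Y * X + X * Y * X + Y * X * Y + X * Y * X * Y)) =
        3 * (Y * X * Y) + 3 * (Y * X * Y) * (X + X * Y) + 3 * Y ^ 2 * X
          + 3 * Y ^ 2 * (X * Y) := by noncomm_ring
    rw [h1, z2 X hX, z2 _ hp1, add_zero, add_zero] at h2
    set e := 3 * (Y * X * Y) with he
    set q := X + X * Y with hq
    have hqm : q ∈ Φ.F 1 := (Φ.F 1).add_mem hX hp1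
    have hem : e ∈ Φ.F 3 := by
      have h3 : Y * X * Y ∈ Φ.F 3 := Φ.mul_mem (Φ.mul_mem hY hX) hY
      have h4 : e = Y * X * Y + Y * X * Y + Y * X * Y := by rw [he]; noncomm_ring
      rw [h4]
      exact (Φ.F 3).add_mem ((Φ.F 3).add_mem h3 h3) h3
    have h5 : e = - (e * q) := eq_neg_of_add_eq_zero_left h2.symm
    have h6 : ∀ n : ℕ, e = (-1) ^ n * (e * q ^ n) := by
      intro n
      induction n with
      | zero => simp
      | succ n ih =>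
        have h7 : e * q ^ n = - (e * q ^ (n + 1)) := by
          rw [pow_succ']
          conv_lhs => rw [h5]
          noncomm_ring
        rw [h7] at ih
        rw [pow_succ]
        conv_lhs => rw [ih]
        noncomm_ring
    have h8' : e * q ^ 6 = 0 := Φ.nine _ (Φ.mul_mem hem (Φ.pow_mem hqm 6))
    rw [h6 6, h8', mul_zero]
  have hf : 3 * (X * Y * X) = 0 := by
    have h1 : (3 * (X * Y + Y * X + X * Y * X + Y * X * Y + X * Y * X * Y)) * X = 0 := by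
      rw [E, neg_mul, Φ.nine _ (Φ.mul_mem h8 hX), neg_zero]
    have h2 : (3 * (X * Y + Y * X + X * Y * X + Y * X * Y + X * Y * X * Y)) * X =
        3 * (X * Y * X) + Y * (3 * X ^ 2) + (X * Y) * (3 * X ^ 2)
          + 3 * (Y * X * Y) * X + X * (3 * (Y * X * Y)) * X := by noncomm_ring
    rw [h1, z3 Y hY, z3 _ hp1, he, zero_mul, mul_zero, zero_mul, add_zero, add_zero, add_zero,
      add_zero] at h2
    exact h2.symm
  have h3 : 3 * (X * Y + Y * X + X * Y * X + Y * X * Y + X * Y * X * Y) =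
      3 * (X * Y + Y * X) + 3 * (X * Y * X) + 3 * (Y * X * Y) + X * (3 * (Y * X * Y)) := by
    noncomm_ring
  rw [h3, hf, he, mul_zero, add_zero, add_zero, add_zero] at E
  exact E

theorem ring_key (h9 : (9 : R) = 0) {X Y Y' : R} (hX : X ∈ Φ.F 1) (hY : Y ∈ Φ.F 1)
    (hY' : Y' ∈ Φ.F 1) (hinv : (1 + Y) * (1 + Y') = 1)
    (n1 : ∑ i ∈ Finset.range 9, (1 + X) ^ i = 0)
    (n2 : ∑ i ∈ Finset.range 9, (1 + Y) ^ i = 0)
    (n3 : ∑ i ∈ Finset.range 9, (1 + Y') ^ i = 0)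
    (n4 : ∑ i ∈ Finset.range 9, ((1 + X) * (1 + Y)) ^ i = 0)
    (n5 : ∑ i ∈ Finset.range 9, ((1 + X) * (1 + Y')) ^ i = 0) :
    (X + Y) ^ 8 + (X - Y) ^ 8 - 2 * X ^ 8 - 2 * Y ^ 8 = 0 := by
  have eX := single Φ h9 hX n1
  have eY := single Φ h9 hY n2
  have eY' := single Φ h9 hY' n3
  have r1 : (1 + X) * (1 + Y) = 1 + (X + Y + X * Y) := by noncomm_ring
  have r2 : (1 + X) * (1 + Y') = 1 + (X + Y' + X * Y') := by noncomm_ring
  rw [r1] at n4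
  rw [r2] at n5
  have hXY : X * Y ∈ Φ.F 1 := Φ.le (by norm_num) (Φ.mul_mem hX hY)
  have hXY' : X * Y' ∈ Φ.F 1 := Φ.le (by norm_num) (Φ.mul_mem hX hY')
  have eZ := single Φ h9 ((Φ.F 1).add_mem ((Φ.F 1).add_mem hX hY) hXY) n4
  have eZ' := single Φ h9 ((Φ.F 1).add_mem ((Φ.F 1).add_mem hX hY') hXY') n5
  have P := pair Φ hX hY eX eY eZ
  have P' := pair Φ hX hY' eX eY' eZ'
  -- Y' in terms of Y
  have hy : Y' = - Y + - (Y * Y') := by
    have h : (1 + Y) * (1 + Y') = 1 + (Y + Y' + Y * Y') := by noncomm_ring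
    rw [h] at hinv
    have h2 : Y + Y' + Y * Y' = 0 := by
      have := congrArg (fun t => t - 1) hinv
      simpa using this
    have h3 : Y' = (Y + Y' + Y * Y') + (- Y + - (Y * Y')) := by abel
    rw [h2, zero_add] at h3
    exact h3
  have hp : - (Y * Y') ∈ Φ.F 2 := (Φ.F 2).neg_mem (Φ.mul_mem hY hY')
  have hnY : - Y ∈ Φ.F 1 := (Φ.F 1).neg_mem hY
  have q1 : Y' ^ 8 = Y ^ 8 := by
    rw [hy, Φ.perturb8 hnY hp]
    exact Even.neg_pow (by decide) Y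
  have q2 : (X + Y') ^ 8 = (X - Y) ^ 8 := by
    have h : X + Y' = (X - Y) + - (Y * Y') := by
      conv_lhs => rw [hy]
      abel
    rw [h, Φ.perturb8 ((Φ.F 1).sub_mem hX hY) hp]
  have q3 : 3 * (Y * Y') = Y ^ 8 := by
    have h : 3 * (Y * Y') = - (3 * Y ^ 2) - 3 * Y ^ 2 * Y' := by
      conv_lhs => rw [hy]
      noncomm_ring
    rw [h, eY, neg_mul, Φ.nine _ (Φ.mul_mem (Φ.pow_mem hY 8) hY')]
    simp
  have q4 : 3 * (X * Y' + Y' * X) = - (3 * (X * Y + Y * X)) := by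
    have h : 3 * (X * Y' + Y' * X) = - (3 * (X * Y + Y * X)) - X * (3 * (Y * Y'))
        - (3 * (Y * Y')) * X := by
      conv_lhs => rw [hy]
      noncomm_ring
    rw [h, q3, Φ.nine _ (Φ.mul_mem hX (Φ.pow_mem hY 8)), Φ.nine _ (Φ.mul_mem (Φ.pow_mem hY 8) hX)]
    simp
  rw [q4, q1, q2, P] at P'
  have h : (X + Y) ^ 8 + (X - Y) ^ 8 - 2 * X ^ 8 - 2 * Y ^ 8 =
      - -((X + Y) ^ 8 - X ^ 8 - Y ^ 8) + ((X - Y) ^ 8 - X ^ 8 - Y ^ 8) := by noncomm_ring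
  rw [h, P']
  abel

end Pool.Agent.W_MP_21427b_al
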