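import Pool.Agent.W_MP_21427b_al.Functor
import Pool.Agent.W_MP_21427b_al.Baer
import Pool.Agent.W_MP_21427b_al.RingLemma

/-!
The relation of degree twelve holds in the associated Lie ring of every group of exponent nine.
-/

namespace Pool.Agent.W_MP_21427b_al

universe u v

/-- iterated left bracket -/
def adp {L : Type u} [LieRing L] : ℕ → L → L → L
  | 0, _, c => c
  | n + 1, a, c => ⁅a, adp n a c⁆

/-- the element `(ad (A+B))^8 C + (ad (A-B))^8 C - 2 (ad A)^8 C - 2 (ad B)^8 C` -/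
def vee {L : Type u} [LieRing L] (A B C : L) : L :=
  adp 8 (A + B) C + adp 8 (A - B) C - (2 : ℤ) • adp 8 A C - (2 : ℤ) • adp 8 B C

section

variable {L : Type u} [LieRing L] {M : Type v} [LieRing M]

theorem map_adp (f : L →ₗ⁅ℤ⁆ M) (n : ℕ) (a c : L) : f (adp n a c) = adp n (f a) (f c) := by
  induction n with
  | zero => rfl
  | succ n ih =>
    change f ⁅a, adp n a c⁆ = ⁅f a, adp n (f a) (f c)⁆
    rw [LieHom.map_lie, ih]

theorem map_vee (f : L →ₗ⁅ℤ⁆ M) (A B C : L) : f (vee A B C) = vee (f A) (f B) (f C) := by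
  unfold vee
  rw [map_sub, map_sub, map_add, map_zsmul, map_zsmul, map_adp, map_adp, map_adp, map_adp,
    map_add, map_sub]

/-- the inner derivation as an additive endomorphism -/
def adE (a : L) : AddMonoid.End L where
  toFun b := ⁅a, b⁆
  map_zero' := lie_zero a
  map_add' := lie_add a

theorem adE_add (a b : L) : adE (a + b) = adE a + adE b :=
  AddMonoidHom.ext fun c => add_lie a b c

theorem adE_sub (a b : L) : adE (a - b) = adE a - adE b :=
  AddMonoidHom.ext fun c => sub_lie a b c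

theorem adp_eq (n : ℕ) (a c : L) : adp n a c = ((adE a) ^ n) c := by
  induction n with
  | zero => rfl
  | succ n ih =>
    rw [pow_succ']
    change ⁅a, adp n a c⁆ = ⁅a, ((adE a) ^ n) c⁆
    rw [ih]

theorem vee_eq (A B C : L) : vee A B C =
    ((adE A + adE B) ^ 8 + (adE A - adE B) ^ 8 - (adE A ^ 8 + adE A ^ 8) -
      (adE B ^ 8 + adE B ^ 8)) C := by
  have e1 := adp_eq 8 (A + B) C
  have e2 := adp_eq 8 (A - B) C
  have e3 := adp_eq 8 A C
  have e4 := adp_eq 8 B C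
  rw [adE_add] at e1
  rw [adE_sub] at e2
  unfold vee
  rw [e1, e2, e3, e4, two_zsmul, two_zsmul]
  rfl

end

section Homog

variable {G : Type u} [Group G]

theorem adp_cls (a b : G) (j : ℕ) (hb : b ∈ gam G j) (n : ℕ) :
    ∃ (w : G) (hw : w ∈ gam G (j + n)), adp n (cls 0 a (mem_zero a)) (cls j b hb) =
      cls (j + n) w hw := by
  induction n with
  | zero => exact ⟨b, hb, rfl⟩
  | succ n ih =>
    obtain ⟨w, hw, h⟩ := ih
    have h1 : cm a w ∈ gam G (j + (n + 1)) := mem_of_le (by omega) (cm_mem (mem_zero a) hw)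
    refine ⟨cm a w, h1, ?_⟩
    change ⁅_, adp n (cls 0 a (mem_zero a)) (cls j b hb)⁆ = _
    rw [h, lie_cls]
    exact cls_congr _ _ (by omega) rfl

theorem vee_cls (a b z : G) (hz : z ∈ gam G 3) :
    ∃ (w : G) (hw : w ∈ gam G 11),
      vee (cls 0 a (mem_zero a)) (cls 0 b (mem_zero b)) (cls 3 z hz) = cls 11 w hw := by
  have e1 : cls 0 a (mem_zero a) + cls 0 b (mem_zero b) = cls 0 (a * b) (mem_zero _) :=
    (cls_mul _ _).symm
  have e2 : cls 0 a (mem_zero a) - cls 0 b (mem_zero b) = cls 0 (a * b⁻¹) (mem_zero _) := by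
    rw [sub_eq_add_neg, ← cls_inv, ← cls_mul]
  unfold vee
  rw [e1, e2]
  obtain ⟨w1, h1, k1⟩ := adp_cls (a * b) z 3 hz 8
  obtain ⟨w2, h2, k2⟩ := adp_cls (a * b⁻¹) z 3 hz 8
  obtain ⟨w3, h3, k3⟩ := adp_cls a z 3 hz 8
  obtain ⟨w4, h4, k4⟩ := adp_cls b z 3 hz 8
  rw [k1, k2, k3, k4]
  refine ⟨w1 * w2 * (w3 * w3)⁻¹ * (w4 * w4)⁻¹, ?_, ?_⟩
  · exact (gam G 11).mul_mem ((gam G 11).mul_mem ((gam G 11).mul_mem h1 h2)
      ((gam G 11).inv_mem ((gam G 11).mul_mem h3 h3)))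
      ((gam G 11).inv_mem ((gam G 11).mul_mem h4 h4))
  · rw [two_zsmul, two_zsmul, ← cls_mul h3 h3, ← cls_mul h4 h4, sub_eq_add_neg, sub_eq_add_neg,
      ← cls_inv, ← cls_inv, ← cls_mul h1 h2, ← cls_mul, ← cls_mul]

end Homog

section Nilp

variable {G : Type u} [Group G] (z : G)

/-- the normal closure of one element -/
abbrev NC : Subgroup G := Subgroup.normalClosure {z}

theorem NC_le (hz : z ∈ gam G 3) : NC z ≤ gam G 3 :=
  Subgroup.normalClosure_le_normal (by simpa using hz)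

theorem NC_form (hz : z ∈ gam G 3) {a : G} (ha : a ∈ NC z) :
    ∃ (n : ℤ) (t : G), t ∈ gam G 4 ∧ a = z ^ n * t := by
  have hn : (gam G 4).Normal := inferInstance
  unfold NC Subgroup.normalClosure at ha
  induction ha using Subgroup.closure_induction with
  | mem x hx =>
    obtain ⟨z', hz', hx'⟩ := Group.mem_conjugatesOfSet_iff.mp hx
    rw [Set.mem_singleton_iff.mp hz'] at hx'
    obtain ⟨g, hg⟩ := isConj_iff.mp hx'
    refine ⟨1, cm z⁻¹ g, ?_, ?_⟩
    · exact cm_mem (n := 0) ((gam G 3).inv_mem hz) (mem_zero g)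
    · rw [← hg]; simp [cm, mul_assoc]
  | one => exact ⟨0, 1, (gam G 4).one_mem, by simp⟩
  | mul x y _ _ hx hy =>
    obtain ⟨n, t, ht, rfl⟩ := hx
    obtain ⟨m, s, hs, rfl⟩ := hy
    refine ⟨n + m, (z ^ (-m) * t * (z ^ (-m))⁻¹) * s, ?_, ?_⟩
    · exact (gam G 4).mul_mem (conj_mem ht _) hs
    · rw [zpow_add, zpow_neg]; group
  | inv x _ hx =>
    obtain ⟨n, t, ht, rfl⟩ := hx
    refine ⟨-n, z ^ n * t⁻¹ * (z ^ n)⁻¹, ?_, ?_⟩
    · exact conj_mem ((gam G 4).inv_mem ht) _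
    · rw [zpow_neg]; group

theorem cm_NC (hz : z ∈ gam G 3) {a b : G} (ha : a ∈ NC z) (hb : b ∈ NC z) :
    cm a b ∈ gam G 8 := by
  obtain ⟨n, t, ht, rfl⟩ := NC_form z hz ha
  obtain ⟨m, s, hs, rfl⟩ := NC_form z hz hb
  set π := QuotientGroup.mk' (gam G 8) with hπ
  have c1 : Commute (π t) (π z) :=
    comm_of_mem (gam G 8) (mem_of_le (by omega) (cm_mem ht hz))
  have c2 : Commute (π s) (π z) :=
    comm_of_mem (gam G 8) (mem_of_le (by omega) (cm_mem hs hz))
  have c3 : Commute (π t) (π s) :=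
    comm_of_mem (gam G 8) (mem_of_le (by omega) (cm_mem ht hs))
  have c4 : Commute (π z ^ n * π t) (π z ^ m * π s) := by
    apply Commute.mul_left
    · apply Commute.mul_right
      · exact (Commute.refl (π z)).zpow_zpow n m
      · exact (c2.symm).zpow_left n
    · apply Commute.mul_right
      · exact c1.zpow_right m
      · exact c3
  rw [← QuotientGroup.ker_mk' (gam G 8), MonoidHom.mem_ker, ← hπ]
  unfold cm
  rw [map_mul, map_mul, map_mul, map_inv, map_inv, map_mul, map_mul, map_zpow, map_zpow, c4.eq]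
  group

theorem coe_cm (a b : NC z) : ((cm a b : NC z) : G) = cm (a : G) (b : G) := rfl

theorem isBaer_NC (hz : z ∈ gam G 3) (h9 : ∀ g : G, g ^ 9 = 1) (h12 : ∀ g ∈ gam G 12, g = 1) :
    IsBaer (NC z) where
  cent a b c := by
    apply Subtype.ext
    have h1 : cm (cm (a : G) (b : G)) (c : G) ∈ gam G 12 :=
      mem_of_le (by omega) (cm_mem (cm_NC z hz a.2 b.2) (NC_le z hz c.2))
    have h2 := h12 _ h1
    have h3 := mul_eq_cm (cm (a : G) (b : G)) (c : G)
    rw [h2, one_mul] at h3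
    rw [Subgroup.coe_mul, Subgroup.coe_mul, coe_cm]
    exact h3
  exp9 a := by
    apply Subtype.ext
    rw [Subgroup.coe_pow, Subgroup.coe_one]
    exact h9 a

/-- conjugation as an endomorphism -/
def rho [IsBaer (NC z)] : G →* AddMonoid.End (BaerT (NC z)) where
  toFun g := baerEnd (MulAut.conjNormal g : NC z ≃* NC z).toMonoidHom
  map_one' := by
    apply AddMonoidHom.ext
    intro b
    change toB ((MulAut.conjNormal (1 : G) : NC z ≃* NC z) b.val) = b
    rw [map_one]; rfl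
  map_mul' g h := by
    apply AddMonoidHom.ext
    intro b
    change toB ((MulAut.conjNormal (g * h) : NC z ≃* NC z) b.val) =
      toB ((MulAut.conjNormal g : NC z ≃* NC z) ((MulAut.conjNormal h : NC z ≃* NC z) b.val))
    rw [map_mul]; rfl

theorem rho_apply [IsBaer (NC z)] (g : G) (b : NC z) :
    rho z g (toB b) = toB ((MulAut.conjNormal g : NC z ≃* NC z) b) := rfl

theorem pr_conj (k b : G) (n : ℕ) :
    ∀ (s : ℕ → NC z), (∀ i, (s i : G) = k ^ i * b * (k ^ i)⁻¹) →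
      ((pr s n : NC z) : G) * k ^ n = (b * k) ^ n := by
  intro s hs
  induction n with
  | zero => simp [pr]
  | succ n ih =>
    change ((pr s n * s n : NC z) : G) * k ^ (n + 1) = _
    rw [Subgroup.coe_mul, hs, pow_succ (b * k), ← ih, pow_succ k]
    group

theorem sum_rho [IsBaer (NC z)] (h9 : ∀ g : G, g ^ 9 = 1) (k : G) :
    ∑ i ∈ Finset.range 9, (rho z k) ^ i = 0 := by
  apply AddMonoidHom.ext
  intro b
  have e : ∀ i, ((rho z k) ^ i) (toB b.val) =
      toB ((MulAut.conjNormal (k ^ i) : NC z ≃* NC z) b.val) := by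
    intro i
    rw [← map_pow, rho_apply]
  have h1 : (∑ i ∈ Finset.range 9, (rho z k) ^ i) b =
      ∑ i ∈ Finset.range 9, ((rho z k) ^ i) b := by
    exact AddMonoidHom.finsetSum_apply _ _ _
  have h2 : ∑ i ∈ Finset.range 9, ((rho z k) ^ i) b =
      ∑ i ∈ Finset.range 9, toB ((MulAut.conjNormal (k ^ i) : NC z ≃* NC z) b.val) :=
    Finset.sum_congr rfl fun i _ => e i
  refine h1.trans (h2.trans ?_)
  apply sum_eq_zero_of_pr
  · have h := pr_conj z k (b.val : G) 9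
      (fun i => (MulAut.conjNormal (k ^ i) : NC z ≃* NC z) b.val) (fun i => rfl)
    rw [h9, h9, mul_one] at h
    exact Subtype.ext h
  · have h := pr_conj z k ((b.val : G)⁻¹) 9
      (fun i => ((MulAut.conjNormal (k ^ i) : NC z ≃* NC z) b.val)⁻¹) (fun i => by
        change (k ^ i * (b.val : G) * (k ^ i)⁻¹)⁻¹ = _
        group)
    rw [h9, h9, mul_one] at h
    exact Subtype.ext h

theorem bAdd_mem {j : ℕ} {a b : NC z} (ha : (a : G) ∈ gam G j) (hb : (b : G) ∈ gam G j) :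
    ((bAdd a b : NC z) : G) ∈ gam G j := by
  change (a : G) * b * (b * a * (b : G)⁻¹ * (a : G)⁻¹) ^ 5 ∈ gam G j
  exact (gam G j).mul_mem ((gam G j).mul_mem ha hb) ((gam G j).pow_mem
    ((gam G j).mul_mem ((gam G j).mul_mem ((gam G j).mul_mem hb ha) ((gam G j).inv_mem hb))
      ((gam G j).inv_mem ha)) 5)

/-- the filtration of the endomorphism ring -/
def filt [IsBaer (NC z)] (hz : z ∈ gam G 3) (h12 : ∀ g ∈ gam G 12, g = 1) :
    Filt (AddMonoid.End (BaerT (NC z))) where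
  F n :=
    { carrier := {T | ∀ (j : ℕ) (b : NC z), (b : G) ∈ gam G j →
        ((T (toB b)).val : G) ∈ gam G (j + n)}
      add_mem' := by
        intro T S hT hS j b hb
        exact bAdd_mem z (hT j b hb) (hS j b hb)
      zero_mem' := by
        intro j b hb
        exact (gam G _).one_mem
      neg_mem' := by
        intro T hT j b hb
        exact (gam G _).inv_mem (hT j b hb) }
  mul_mem := by
    intro i j T S hT hS k b hb
    have h := hT _ (S (toB b)).val (hS k b hb)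
    exact mem_of_le (by omega) h
  anti := by
    intro i T hT j b hb
    exact mem_of_le (by omega) (hT j b hb)
  one_mem := by
    intro j b hb
    exact hb
  nine := by
    intro T hT
    apply AddMonoidHom.ext
    intro b
    have h := h12 _ (hT 3 b.val (NC_le z hz b.val.2))
    have h2 : (T b).val = 1 := Subtype.ext h
    exact congrArg BaerT.toB h2

theorem mem_filt [IsBaer (NC z)] (hz : z ∈ gam G 3) (h12 : ∀ g ∈ gam G 12, g = 1) (n : ℕ)
    (T : AddMonoid.End (BaerT (NC z))) :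
    T ∈ (filt z hz h12).F n ↔ ∀ (j : ℕ) (b : NC z), (b : G) ∈ gam G j →
        ((T (toB b)).val : G) ∈ gam G (j + n) := Iff.rfl

/-- an endomorphism `T` of filtration degree `n` inducing the operator `τ` -/
def Rel [IsBaer (NC z)] (n : ℕ) (T : AddMonoid.End (BaerT (NC z)))
    (τ : AddMonoid.End (AssocLie G)) : Prop :=
  ∀ (j : ℕ) (b : NC z) (hb : (b : G) ∈ gam G j),
    ∃ h : ((T (toB b)).val : G) ∈ gam G (j + n), cls (j + n) _ h = τ (cls j (b : G) hb)

theorem cls_bAdd (hz : z ∈ gam G 3) {j : ℕ} {a b : NC z} (ha : (a : G) ∈ gam G j)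
    (hb : (b : G) ∈ gam G j) :
    cls j ((bAdd a b : NC z) : G) (bAdd_mem z ha hb) = cls j (a : G) ha + cls j (b : G) hb := by
  rw [← cls_mul, eq_comm, cls_eq]
  have h : ((a : G) * b)⁻¹ * ((bAdd a b : NC z) : G) = (cm (b : G) (a : G)) ^ 5 := by
    change ((a : G) * b)⁻¹ * ((a : G) * b * (cm (b : G) (a : G)) ^ 5) = _
    group
  rw [h]
  have h2 : cm (b : G) (a : G) ∈ gam G (j + 3 + 1) := cm_mem hb (NC_le z hz a.2)
  exact (gam G (j + 1)).pow_mem (mem_of_le (by omega) h2) 5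

variable {z}

theorem Rel.add [IsBaer (NC z)] (hz : z ∈ gam G 3) {n : ℕ} {T S : AddMonoid.End (BaerT (NC z))}
    {τ σ : AddMonoid.End (AssocLie G)} (hT : Rel z n T τ) (hS : Rel z n S σ) :
    Rel z n (T + S) (τ + σ) := by
  intro j b hb
  obtain ⟨h1, e1⟩ := hT j b hb
  obtain ⟨h2, e2⟩ := hS j b hb
  refine ⟨bAdd_mem z h1 h2, ?_⟩
  change _ = τ (cls j (b : G) hb) + σ (cls j (b : G) hb)
  rw [← e1, ← e2]
  exact cls_bAdd z hz h1 h2

theorem Rel.neg [IsBaer (NC z)] {n : ℕ} {T : AddMonoid.End (BaerT (NC z))}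
    {τ : AddMonoid.End (AssocLie G)} (hT : Rel z n T τ) :
    Rel z n (-T) (-τ) := by
  intro j b hb
  obtain ⟨h1, e1⟩ := hT j b hb
  refine ⟨(gam G _).inv_mem h1, ?_⟩
  change _ = - τ (cls j (b : G) hb)
  rw [← e1]
  exact cls_inv h1

theorem Rel.sub [IsBaer (NC z)] (hz : z ∈ gam G 3) {n : ℕ} {T S : AddMonoid.End (BaerT (NC z))}
    {τ σ : AddMonoid.End (AssocLie G)} (hT : Rel z n T τ) (hS : Rel z n S σ) :
    Rel z n (T - S) (τ - σ) := by
  rw [sub_eq_add_neg, sub_eq_add_neg]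
  exact Rel.add hz hT (Rel.neg hS)

theorem Rel.mul [IsBaer (NC z)] {m n : ℕ} {T S : AddMonoid.End (BaerT (NC z))}
    {τ σ : AddMonoid.End (AssocLie G)} (hT : Rel z m T τ) (hS : Rel z n S σ) :
    Rel z (n + m) (T * S) (τ * σ) := by
  intro j b hb
  obtain ⟨h2, e2⟩ := hS j b hb
  obtain ⟨h1, e1⟩ := hT (j + n) (S (toB b)).val h2
  refine ⟨by rw [← add_assoc]; exact h1, ?_⟩
  change _ = τ (σ (cls j (b : G) hb))
  rw [← e2, ← e1]
  exact cls_congr _ _ (by omega) rfl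

theorem Rel.one [IsBaer (NC z)] : Rel z 0 1 1 := by
  intro j b hb
  exact ⟨hb, rfl⟩

theorem Rel.pow [IsBaer (NC z)] {T : AddMonoid.End (BaerT (NC z))}
    {τ : AddMonoid.End (AssocLie G)} (hT : Rel z 1 T τ) (n : ℕ) :
    Rel z n (T ^ n) (τ ^ n) := by
  induction n with
  | zero => exact Rel.one
  | succ n ih =>
    rw [pow_succ', pow_succ']
    exact Rel.mul hT ih

theorem Rel.zero [IsBaer (NC z)] {n : ℕ} {τ : AddMonoid.End (AssocLie G)}
    (hr : Rel z n 0 τ) (j : ℕ) (b : NC z) (hb : (b : G) ∈ gam G j) :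
    τ (cls j (b : G) hb) = 0 := by
  obtain ⟨h, e⟩ := hr j b hb
  have e1 : ((((0 : AddMonoid.End (BaerT (NC z))) (toB b)).val : NC z) : G) = 1 := rfl
  rw [← e, cls_eq_zero, e1]
  exact (gam G _).one_mem

theorem Rel.zero' [IsBaer (NC z)] {n : ℕ} {τ : AddMonoid.End (AssocLie G)}
    (hr : Rel z n 0 τ) (j : ℕ) (x : G) (hx : x ∈ NC z) (hb : x ∈ gam G j) :
    τ (cls j x hb) = 0 :=
  Rel.zero hr j ⟨x, hx⟩ hb

theorem Rel.base [IsBaer (NC z)] (hz : z ∈ gam G 3) (c : G) :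
    Rel z 1 (rho z c - 1) (adE (cls 0 c (mem_zero c))) := by
  intro j b hb
  have e : (((rho z c - 1) (toB b)).val : G) =
      cm c (b : G) * (cm ((b : G)⁻¹) (c * b * c⁻¹)) ^ 5 := by
    rw [sub_eq_add_neg]
    change ((c * (b : G) * c⁻¹) * (b : G)⁻¹) *
      ((b : G)⁻¹ * (c * b * c⁻¹) * ((b : G)⁻¹)⁻¹ * (c * b * c⁻¹)⁻¹) ^ 5 = _
    rfl
  have h1 : cm c (b : G) ∈ gam G (j + 1) := mem_of_le (by omega) (cm_mem (mem_zero c) hb)
  have h2 : cm ((b : G)⁻¹) (c * b * c⁻¹) ∈ gam G (j + 1 + 1) :=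
    mem_of_le (by omega) (cm_mem ((gam G j).inv_mem hb) (conj_mem (NC_le z hz b.2) c))
  have h3 : (cm ((b : G)⁻¹) (c * b * c⁻¹)) ^ 5 ∈ gam G (j + 1 + 1) := (gam G _).pow_mem h2 5
  have h4 : cm c (b : G) * (cm ((b : G)⁻¹) (c * b * c⁻¹)) ^ 5 ∈ gam G (j + 1) :=
    (gam G _).mul_mem h1 (mem_of_le (by omega) h3)
  refine ⟨e ▸ h4, ?_⟩
  change _ = ⁅cls 0 c (mem_zero c), cls j (b : G) hb⁆
  rw [lie_cls, cls_congr _ h4 rfl e, cls_congr (cm_mem (mem_zero c) hb) h1 (by omega) rfl, eq_comm,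
    cls_eq, inv_mul_cancel_left]
  exact h3

theorem vee_zero_nilp (hz : z ∈ gam G 3) (h9 : ∀ g : G, g ^ 9 = 1)
    (h12 : ∀ g ∈ gam G 12, g = 1) (a b : G) :
    vee (cls 0 a (mem_zero a)) (cls 0 b (mem_zero b)) (cls 3 z hz) = 0 := by
  have : IsBaer (NC z) := isBaer_NC z hz h9 h12
  set X := rho z a - 1 with hX
  set Y := rho z b - 1 with hY
  set Y' := rho z b⁻¹ - 1 with hY'
  have rX := Rel.base hz a
  have rY := Rel.base hz b
  have rY' := Rel.base hz b⁻¹
  rw [← hX] at rX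
  rw [← hY] at rY
  rw [← hY'] at rY'
  have X1 : 1 + X = rho z a := by rw [hX]; abel
  have Y1 : 1 + Y = rho z b := by rw [hY]; abel
  have Y1' : 1 + Y' = rho z b⁻¹ := by rw [hY']; abel
  have R9 : (9 : AddMonoid.End (BaerT (NC z))) = 0 := by
    apply AddMonoidHom.ext
    intro t
    have h : (9 : AddMonoid.End (BaerT (NC z))) = 9 • (1 : AddMonoid.End (BaerT (NC z))) := by
      rw [nsmul_one]; rfl
    rw [h]
    exact nine_nsmul t
  have key := ring_key (filt z hz h12) R9 (X := X) (Y := Y) (Y' := Y')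
    (fun j b hb => (rX j b hb).1) (fun j b hb => (rY j b hb).1) (fun j b hb => (rY' j b hb).1)
    (by rw [Y1, Y1', ← map_mul, mul_inv_cancel, map_one])
    (by rw [X1]; exact sum_rho z h9 a)
    (by rw [Y1]; exact sum_rho z h9 b)
    (by rw [Y1']; exact sum_rho z h9 b⁻¹)
    (by rw [X1, Y1, ← map_mul]; exact sum_rho z h9 (a * b))
    (by rw [X1, Y1', ← map_mul]; exact sum_rho z h9 (a * b⁻¹))
  set A := adE (cls 0 a (mem_zero a)) with hA
  set B := adE (cls 0 b (mem_zero b)) with hB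
  have r1 : Rel z 8 ((X + Y) ^ 8 + (X - Y) ^ 8 - 2 * X ^ 8 - 2 * Y ^ 8)
      ((A + B) ^ 8 + (A - B) ^ 8 - (A ^ 8 + A ^ 8) - (B ^ 8 + B ^ 8)) := by
    rw [two_mul (X ^ 8), two_mul (Y ^ 8)]
    exact Rel.sub hz (Rel.sub hz (Rel.add hz (Rel.pow (Rel.add hz rX rY) 8)
      (Rel.pow (Rel.sub hz rX rY) 8)) (Rel.add hz (Rel.pow rX 8) (Rel.pow rX 8)))
      (Rel.add hz (Rel.pow rY 8) (Rel.pow rY 8))
  rw [key] at r1
  have hzNC : z ∈ NC z := Subgroup.subset_normalClosure (Set.mem_singleton z)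
  have e := Rel.zero' r1 3 z hzNC hz
  exact (vee_eq (cls 0 a (mem_zero a)) (cls 0 b (mem_zero b)) (cls 3 z hz)).trans e

end Nilp

section General

variable {G : Type u} [Group G]

theorem gam_quot (n : ℕ) : ∀ g ∈ gam (G ⧸ gam G n) n, g = 1 := by
  intro g hg
  have h : (gam G n).map (QuotientGroup.mk' (gam G n)) = gam (G ⧸ gam G n) n := by
    rw [Subgroup.map_lowerCentralSeries]
    congr 1
    exact Subgroup.map_top_of_surjective _ (QuotientGroup.mk'_surjective _)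
  rw [← h] at hg
  obtain ⟨x, hx, rfl⟩ := hg
  exact (QuotientGroup.eq_one_iff x).mpr hx

/-- the relation of degree twelve -/
theorem vee_zero (h9 : ∀ g : G, g ^ 9 = 1) {z : G} (hz : z ∈ gam G 3) (a b : G) :
    vee (cls 0 a (mem_zero a)) (cls 0 b (mem_zero b)) (cls 3 z hz) = 0 := by
  set f := QuotientGroup.mk' (gam G 12) with hf
  obtain ⟨w, hw, e⟩ := vee_cls a b z hz
  have h9' : ∀ g : G ⧸ gam G 12, g ^ 9 = 1 := by
    intro g
    obtain ⟨x, rfl⟩ := QuotientGroup.mk'_surjective _ g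
    rw [← map_pow, h9, map_one]
  have h1 := vee_zero_nilp (z := f z) (map_mem f hz) h9' (gam_quot 12) (f a) (f b)
  have h2 : assocMap f (vee (cls 0 a (mem_zero a)) (cls 0 b (mem_zero b)) (cls 3 z hz)) = 0 := by
    rw [map_vee, assocMap_cls, assocMap_cls, assocMap_cls]
    exact h1
  rw [e, assocMap_cls, cls_eq_zero] at h2
  have h3 := gam_quot 12 _ h2
  rw [hf, ← MonoidHom.mem_ker, QuotientGroup.ker_mk'] at h3
  rw [e, cls_eq_zero]
  exact h3

end General

end Pool.Agent.W_MP_21427b_al
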