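import Pool.Agent.W_MP_21427b_al.PartI
import Pool.Agent.W_MP_21427b_al.HeisLS

/-!
A group of exponent nine in whose associated Lie ring the substituted relation fails.
-/

namespace Pool.Agent.W_MP_21427b_al

universe u v

theorem gam_TT (n : ℕ) : (gam HH n).map HH.subtype ≤ TT n := by
  induction n with
  | zero =>
    intro w hw
    obtain ⟨v, _, rfl⟩ := hw
    exact HH_le_TT v.2
  | succ n ih =>
    have h : (gam HH (n + 1)).map HH.subtype =
        ⁅(gam HH n).map HH.subtype, (⊤ : Subgroup HH).map HH.subtype⁆ :=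
      Subgroup.map_commutator _ _ _
    rw [h]
    refine (Subgroup.commutator_mono ih ?_).trans (TT_comm n)
    intro w hw
    obtain ⟨v, _, rfl⟩ := hw
    exact HH_le_TT v.2

theorem gam_sixteen {w : HH} (hw : w ∈ gam HH 16) : (w : Wr).f = 0 := by
  have h := gam_TT 16 (Subgroup.mem_map_of_mem HH.subtype hw)
  exact PP_zero h.1

/-- an element of the Heisenberg group inside `HH` -/
def el (k : Hs) : HH := ⟨⟨0, k⟩, LS.zero, Submodule.zero_mem _⟩

/-- the element given by the function `f0` -/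
def zed : HH := ⟨⟨f0, 1⟩, f0_LS, f0_mem⟩

theorem cm_el {k : Hs} {w : HH} {f : Hs → ZMod 3} (h : (w : Wr) = ⟨f, 1⟩) :
    ((cm (el k) w : HH) : Wr) = ⟨Dk k f, 1⟩ := by
  have e : ((cm (el k) w : HH) : Wr) = ⟨0, k⟩ * (w : Wr) * (⟨0, k⟩ : Wr)⁻¹ * (w : Wr)⁻¹ := rfl
  rw [e, h, wr_inv, wr_inv, wr_mul, wr_mul, wr_mul, Dk_eq]
  apply Wr.ext
  · change 0 + act k f + act (k * 1) (- act k⁻¹ 0) + act (k * 1 * k⁻¹) (- act 1⁻¹ f) = _
    rw [map_zero, neg_zero, map_zero, mul_one, mul_inv_cancel, inv_one, act_one, act_one]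
    abel_nf
  · change k * 1 * k⁻¹ * 1⁻¹ = 1
    group

theorem cm_el_el (k l : Hs) : cm (el k) (el l) = el (k * l * k⁻¹ * l⁻¹) := by
  apply Subtype.ext
  have e : ((cm (el k) (el l) : HH) : Wr) = ⟨0, k⟩ * (⟨0, l⟩ : Wr) * (⟨0, k⟩ : Wr)⁻¹ *
      (⟨0, l⟩ : Wr)⁻¹ := rfl
  rw [e, wr_inv, wr_inv, wr_mul, wr_mul, wr_mul]
  apply Wr.ext
  · change 0 + act k 0 + act (k * l) (- act k⁻¹ 0) + act (k * l * k⁻¹) (- act l⁻¹ 0) = 0
    simp
  · rfl

section Iter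

variable {G : Type u} [Group G]

/-- iterated commutator -/
def cmi : ℕ → G → G → G
  | 0, _, b => b
  | n + 1, a, b => cm a (cmi n a b)

theorem adE_cls {i j : ℕ} {a b : G} (ha : a ∈ gam G i) (hb : b ∈ gam G j) (n : ℕ) :
    ∃ h : cmi n a b ∈ gam G (j + n * (i + 1)),
      ((adE (cls i a ha)) ^ n) (cls j b hb) = cls (j + n * (i + 1)) (cmi n a b) h := by
  induction n with
  | zero =>
    have h : cmi 0 a b ∈ gam G (j + 0 * (i + 1)) := mem_of_le (by omega) hb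
    refine ⟨h, ?_⟩
    rw [pow_zero]
    exact cls_congr _ _ (by omega) rfl
  | succ n ih =>
    obtain ⟨h, e⟩ := ih
    have h1 : cmi (n + 1) a b ∈ gam G (j + (n + 1) * (i + 1)) :=
      mem_of_le (by rw [Nat.succ_mul]; omega) (cm_mem ha h)
    refine ⟨h1, ?_⟩
    rw [pow_succ']
    change ⁅cls i a ha, ((adE (cls i a ha)) ^ n) (cls j b hb)⁆ = _
    rw [e, lie_cls]
    exact cls_congr _ _ (by rw [Nat.succ_mul]; omega) rfl

theorem adE_cls2 {i i' j : ℕ} {a a' b : G} (ha : a ∈ gam G i) (ha' : a' ∈ gam G i')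
    (hb : b ∈ gam G j) (m n : ℕ) :
    ∃ h : cmi m a (cmi n a' b) ∈ gam G (j + n * (i' + 1) + m * (i + 1)),
      ((adE (cls i a ha)) ^ m * (adE (cls i' a' ha')) ^ n) (cls j b hb) =
        cls (j + n * (i' + 1) + m * (i + 1)) (cmi m a (cmi n a' b)) h := by
  obtain ⟨h1, e1⟩ := adE_cls ha' hb n
  obtain ⟨h2, e2⟩ := adE_cls ha h1 m
  refine ⟨h2, ?_⟩
  rw [← e2, ← e1]
  rfl

end Iter

theorem binom_comm {R : Type u} [Ring R] {P Q : R} (h : P * Q = Q * P) :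
    (P + Q) ^ 8 + (P - Q) ^ 8 - (P ^ 8 + P ^ 8) - (Q ^ 8 + Q ^ 8) =
      56 • (P ^ 6 * Q ^ 2) + 140 • (P ^ 4 * Q ^ 4) + 56 • (P ^ 2 * Q ^ 6) := by
  have hc : Commute P Q := h
  have hc' : Commute P (-Q) := hc.neg_right
  have n2 : (-Q) ^ 2 = Q ^ 2 := Even.neg_pow (by decide) Q
  have n4 : (-Q) ^ 4 = Q ^ 4 := Even.neg_pow (by decide) Q
  have n6 : (-Q) ^ 6 = Q ^ 6 := Even.neg_pow (by decide) Q
  have n8 : (-Q) ^ 8 = Q ^ 8 := Even.neg_pow (by decide) Q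
  have n1 : (-Q) ^ 1 = - Q ^ 1 := Odd.neg_pow (by decide) Q
  have n3 : (-Q) ^ 3 = - Q ^ 3 := Odd.neg_pow (by decide) Q
  have n5 : (-Q) ^ 5 = - Q ^ 5 := Odd.neg_pow (by decide) Q
  have n7 : (-Q) ^ 7 = - Q ^ 7 := Odd.neg_pow (by decide) Q
  rw [sub_eq_add_neg P Q, hc.add_pow, hc'.add_pow]
  simp only [Finset.sum_range_succ, Finset.sum_range_zero, Nat.sub_self, Nat.reduceSub,
    Nat.sub_zero, n1, n2, n3, n4, n5, n6, n7, n8]
  have c0 : Nat.choose 8 0 = 1 := rfl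
  have c1 : Nat.choose 8 1 = 8 := rfl
  have c2 : Nat.choose 8 2 = 28 := rfl
  have c3 : Nat.choose 8 3 = 56 := rfl
  have c4 : Nat.choose 8 4 = 70 := rfl
  have c5 : Nat.choose 8 5 = 56 := rfl
  have c6 : Nat.choose 8 6 = 28 := rfl
  have c7 : Nat.choose 8 7 = 8 := rfl
  have c8 : Nat.choose 8 8 = 1 := rfl
  rw [c0, c1, c2, c3, c4, c5, c6, c7, c8]
  simp only [← nsmul_eq_mul', mul_neg, smul_neg, pow_zero, one_mul, mul_one]
  generalize P ^ 8 = p8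
  generalize Q ^ 8 = q8
  generalize P ^ 1 * Q ^ 7 = t1
  generalize P ^ 2 * Q ^ 6 = t2
  generalize P ^ 3 * Q ^ 5 = t3
  generalize P ^ 4 * Q ^ 4 = t4
  generalize P ^ 5 * Q ^ 3 = t5
  generalize P ^ 6 * Q ^ 2 = t6
  generalize P ^ 7 * Q ^ 1 = t7
  abel1

section Final

/-- the class of the element `x` -/
def X0 : AssocLie HH := cls 0 (el hx) (mem_zero _)
/-- the class of the element `y` -/
def Y0 : AssocLie HH := cls 0 (el hy) (mem_zero _)
/-- the class of the element given by `f0` -/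
def Z0 : AssocLie HH := cls 0 zed (mem_zero _)

theorem cm_xy : cm (el hx) (el hy) = el hu := by
  rw [cm_el_el]
  have h : hx * hy * hx⁻¹ * hy⁻¹ = hu := by decide
  rw [h]

theorem cm_uy : cm (el hu) (el hy) = 1 := by
  rw [cm_el_el]
  have h : hu * hy * hu⁻¹ * hy⁻¹ = 1 := by decide
  rw [h]; rfl

theorem hu_mem : el hu ∈ gam HH 1 := by
  rw [← cm_xy]
  exact cm_mem (m := 0) (n := 0) (mem_zero _) (mem_zero _)

theorem lie_xy : ⁅X0, Y0⁆ = cls 1 (el hu) hu_mem := by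
  unfold X0 Y0
  rw [lie_cls]
  exact cls_congr _ _ rfl cm_xy

theorem comm_uy : adE (cls 1 (el hu) hu_mem) * adE Y0 = adE Y0 * adE (cls 1 (el hu) hu_mem) := by
  apply AddMonoidHom.ext
  intro c
  change ⁅cls 1 (el hu) hu_mem, ⁅Y0, c⁆⁆ = ⁅Y0, ⁅cls 1 (el hu) hu_mem, c⁆⁆
  rw [leibniz_lie (cls 1 (el hu) hu_mem) Y0 c]
  have h : ⁅cls 1 (el hu) hu_mem, Y0⁆ = 0 := by
    unfold Y0
    rw [lie_cls, cls_eq_zero, cm_uy]
    exact (gam HH _).one_mem
  rw [h, zero_lie, zero_add]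

/-- the commutator of weight four -/
def zz : HH := cm (el hx) (cm (el hx) (cm (el hy) zed))

theorem zz_mem : zz ∈ gam HH 3 := by
  have h1 : cm (el hy) zed ∈ gam HH 1 := cm_mem (m := 0) (n := 0) (mem_zero _) (mem_zero _)
  have h2 : cm (el hx) (cm (el hy) zed) ∈ gam HH 2 := cm_mem (m := 0) (n := 1) (mem_zero _) h1
  exact cm_mem (m := 0) (n := 2) (mem_zero _) h2

theorem lie_zz : ⁅X0, ⁅X0, ⁅Y0, Z0⁆⁆⁆ = cls 3 zz zz_mem := by
  unfold X0 Y0 Z0
  rw [lie_cls, lie_cls, lie_cls]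
  exact cls_congr _ _ rfl rfl

theorem deg15 : ((cmi 4 (el hu) (cmi 4 (el hy) zz) : HH) : Wr) = ⟨Dk hu (Dk hu (Dk hu (Dk hu
    (Dk hy (Dk hy (Dk hy (Dk hy (Dk hx (Dk hx (Dk hy f0)))))))))), 1⟩ := by
  have h0 : (zed : Wr) = ⟨f0, 1⟩ := rfl
  have h1 := cm_el (k := hy) h0
  have h2 := cm_el (k := hx) h1
  have h3 := cm_el (k := hx) h2
  have h4 := cm_el (k := hy) (cm_el (k := hy) (cm_el (k := hy) (cm_el (k := hy) h3)))
  exact cm_el (k := hu) (cm_el (k := hu) (cm_el (k := hu) (cm_el (k := hu) h4)))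

/-- homogeneous component -/
def comp {G : Type u} [Group G] (n : ℕ) : AssocLie G →+ gr G n where
  toFun v := v n
  map_zero' := rfl
  map_add' _ _ := rfl

theorem comp_cls_self {G : Type u} [Group G] (n : ℕ) (x : G) (hx : x ∈ gam G n) :
    comp n (cls n x hx) = cl n x hx := by
  unfold comp cls
  exact DirectSum.of_eq_same n _

theorem comp_cls_ne {G : Type u} [Group G] (m n : ℕ) (h : m ≠ n) (x : G) (hx : x ∈ gam G m) :
    comp n (cls m x hx) = 0 := by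
  unfold comp cls
  exact DirectSum.of_eq_of_ne m n _ h.symm

theorem cl_nsmul {G : Type u} [Group G] (m n : ℕ) (x : G) (hx : x ∈ gam G n) :
    m • cl n x hx = cl n (x ^ m) ((gam G n).pow_mem hx m) := rfl

theorem vee_ne_zero : vee ⁅X0, Y0⁆ Y0 ⁅X0, ⁅X0, ⁅Y0, Z0⁆⁆⁆ ≠ 0 := by
  intro h
  rw [vee_eq, lie_xy, lie_zz, binom_comm comm_uy] at h
  obtain ⟨m1, e1⟩ := adE_cls2 hu_mem (mem_zero (el hy)) zz_mem 6 2
  obtain ⟨m2, e2⟩ := adE_cls2 hu_mem (mem_zero (el hy)) zz_mem 4 4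
  obtain ⟨m3, e3⟩ := adE_cls2 hu_mem (mem_zero (el hy)) zz_mem 2 6
  have m2' : cmi 4 (el hu) (cmi 4 (el hy) zz) ∈ gam HH 15 := m2
  have e2' : cls _ _ m2 = cls 15 _ m2' := cls_congr _ _ (by decide) rfl
  have h' : 56 • cls _ _ m1 + 140 • cls 15 _ m2' + 56 • cls _ _ m3 = (0 : AssocLie HH) := by
    rw [← e1, ← e2', ← e2, ← e3]
    exact h
  have h2 := congrArg (comp 15) h'
  have n1 := comp_cls_ne _ 15 (by decide) _ m1
  have n3 := comp_cls_ne _ 15 (by decide) _ m3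
  have n2 := comp_cls_self 15 _ m2'
  rw [map_add, map_add, map_nsmul, map_nsmul, map_nsmul, n1, n3, n2, smul_zero,
    add_zero, zero_add, map_zero, cl_nsmul, cl_eq_zero] at h2
  have h4 := gam_sixteen h2
  rw [Subgroup.coe_pow, deg15, wr_pow] at h4
  have h5 := congrFun h4 1
  change (∑ t ∈ Finset.range 140, act (1 ^ t) _) 1 = 0 at h5
  simp only [one_pow, act_one] at h5
  rw [Finset.sum_const, Finset.card_range, Pi.smul_apply, value_f0] at h5
  revert h5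
  decide +kernel

end Final

end Pool.Agent.W_MP_21427b_al
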